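import Mathlib
import Pool.Agent.N604.MW.Stm6
import Pool.Agent.N78.KV_Measv

/-!
# KW/DMEASQ: the weighted volume of an intersection of slabs from one minor

The linear map which replaces the coordinates `c j` by the linear forms has the minor as its
determinant; the weight is at most one in these coordinates and has integral `5` in the others.
-/

set_option autoImplicit false

namespace Pool.Agent.N545.KW

open MeasureTheory Finset Pool.Agent.N604.MW Pool.Agent.N78.KV

lemma qq_nonneg (t : ℝ) : 0 ≤ qq t := by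
  unfold qq
  split_ifs <;> positivity

lemma qq_le_one (t : ℝ) : qq t ≤ 1 := by
  unfold qq
  split_ifs with h
  · exact le_refl _
  · rw [not_le] at h
    have h1 : 1 ≤ t ^ 2 := by
      rw [← sq_abs]
      nlinarith
    rw [div_le_one (by linarith)]
    exact h1

lemma qq_le (t : ℝ) : qq t ≤ 5 * (1 + t ^ 2)⁻¹ := by
  unfold qq
  split_ifs with h
  · have h1 : t ^ 2 ≤ 4 := by
      rw [← sq_abs]
      have := abs_nonneg t
      nlinarith
    have h2 : 0 < 1 + t ^ 2 := by positivity
    rw [← div_eq_mul_inv, le_div_iff₀ h2]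
    linarith
  · rw [not_le] at h
    have h1 : 4 ≤ t ^ 2 := by
      rw [← sq_abs]
      nlinarith
    have h2 : 0 < 1 + t ^ 2 := by positivity
    rw [← div_eq_mul_inv, div_le_div_iff₀ (by linarith) h2]
    nlinarith

lemma qq_meas : Measurable qq := by
  unfold qq
  refine Measurable.ite ?_ measurable_const ?_
  · exact measurableSet_le (measurable_norm (α := ℝ)) measurable_const
  · fun_prop

lemma qq_int : Integrable qq := by
  refine (integrable_inv_one_add_sq.const_mul 5).mono' qq_meas.aestronglyMeasurable ?_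
  refine Filter.Eventually.of_forall fun t => ?_
  rw [Real.norm_eq_abs, abs_of_nonneg (qq_nonneg t)]
  exact qq_le t

/-- the integral of the weight -/
lemma int_qq : ∫ t, qq t = 5 := by
  have h1 : ∀ t : ℝ, qq t = (fun u : ℝ => qq u) |t| := by
    intro t
    show qq t = qq |t|
    unfold qq
    rw [abs_abs, sq_abs]
  have h2 : ∫ t, qq t = ∫ t, (fun u : ℝ => qq u) |t| := integral_congr_ae
    (Filter.Eventually.of_forall h1)
  rw [h2, integral_comp_abs (f := fun u : ℝ => qq u),
    ← Set.Ioc_union_Ioi_eq_Ioi (zero_le_two : (0 : ℝ) ≤ 2),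
    setIntegral_union Set.Ioc_disjoint_Ioi_same measurableSet_Ioi qq_int.integrableOn
      qq_int.integrableOn]
  have h3 : ∫ t in Set.Ioc (0 : ℝ) 2, qq t = 2 := by
    have h4 : ∫ t in Set.Ioc (0 : ℝ) 2, qq t = ∫ t in Set.Ioc (0 : ℝ) 2, (1 : ℝ) := by
      refine setIntegral_congr_fun measurableSet_Ioc fun t ht => ?_
      show qq t = 1
      unfold qq
      rw [if_pos]
      rw [abs_of_pos ht.1]
      exact ht.2
    rw [h4]
    simp
  have h5 : ∫ t in Set.Ioi (2 : ℝ), qq t = 1 / 2 := by
    have h6 : ∫ t in Set.Ioi (2 : ℝ), qq t = ∫ t in Set.Ioi (2 : ℝ), t ^ (-2 : ℝ) := by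
      refine setIntegral_congr_fun measurableSet_Ioi fun t ht => ?_
      have ht' : (2 : ℝ) < t := ht
      show qq t = t ^ (-2 : ℝ)
      unfold qq
      rw [if_neg]
      · rw [Real.rpow_neg (by linarith), one_div]
        norm_num
      · rw [abs_of_pos (by linarith)]
        linarith
    rw [h6, integral_Ioi_rpow_of_lt (by norm_num) (by norm_num)]
    norm_num
  rw [h3, h5]
  norm_num

/-- the weights of the coordinates -/
noncomputable def wt {g ρ : ℕ} (T : ℝ) (c : Fin ρ → Fin g) (a : Fin g) (t : ℝ) : ℝ :=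
  open Classical in
  if ∃ j, c j = a then (Set.Icc (-T) T).indicator (fun _ => (1 : ℝ)) t else qq t

lemma wt_nonneg {g ρ : ℕ} (T : ℝ) (c : Fin ρ → Fin g) (a : Fin g) (t : ℝ) : 0 ≤ wt T c a t := by
  unfold wt
  split_ifs
  · exact Set.indicator_nonneg (fun _ _ => zero_le_one) _
  · exact qq_nonneg t

lemma wt_meas {g ρ : ℕ} (T : ℝ) (c : Fin ρ → Fin g) (a : Fin g) : Measurable (wt T c a) := by
  unfold wt
  split_ifs
  · exact measurable_const.indicator measurableSet_Icc
  · exact qq_meas

lemma wt_int {g ρ : ℕ} (T : ℝ) (c : Fin ρ → Fin g) (a : Fin g) : Integrable (wt T c a) := by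
  unfold wt
  split_ifs
  · exact (integrable_indicator_iff measurableSet_Icc).2 (integrableOn_const (by
      rw [Real.volume_Icc]; exact ENNReal.ofReal_ne_top))
  · exact qq_int

lemma int_wt {g ρ : ℕ} {T : ℝ} (hT : 0 ≤ T) (c : Fin ρ → Fin g) (a : Fin g) :
    ∫ t, wt T c a t = open Classical in if ∃ j, c j = a then 2 * T else 5 := by
  unfold wt
  split_ifs
  · rw [integral_indicator measurableSet_Icc, setIntegral_const, smul_eq_mul, mul_one]
    simp only [Measure.real, Real.volume_Icc]
    rw [ENNReal.toReal_ofReal (by linarith)]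
    ring
  · exact int_qq

theorem dmeasq : S_DMEASQ := by
  intro g ρ T D y c hT hD hdet
  classical
  have hdet0 : (Matrix.of fun i j => y i (c j)).det ≠ 0 := by
    intro h
    rw [h, abs_zero] at hdet
    linarith
  have hc : Function.Injective c := by
    intro i j hij
    by_contra hne
    exact hdet0 (Matrix.det_zero_of_column_eq hne fun k => by simp [hij])
  set f : (Fin g → ℝ) →ₗ[ℝ] (Fin g → ℝ) := Matrix.toLin' (Mx y c) with hf
  have hfdet : LinearMap.det f = (Matrix.of fun i j => y i (c j)).det := by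
    rw [hf, LinearMap.det_toLin', det_Mx y c hc]
  have hfc : ∀ (γ : Fin g → ℝ) (j : Fin ρ), f γ (c j) = ∑ a, γ a * y j a := by
    intro γ j
    rw [hf, Matrix.toLin'_apply, Matrix.mulVec, dotProduct]
    exact Finset.sum_congr rfl fun b _ => by rw [Mx_c y c hc, mul_comm]
  have hfn : ∀ (γ : Fin g → ℝ) (a : Fin g), (¬ ∃ j, c j = a) → f γ a = γ a := by
    intro γ a ha
    rw [hf, Matrix.toLin'_apply, Matrix.mulVec, dotProduct]
    rw [Finset.sum_congr rfl fun b _ => by rw [Mx_nc y c ha]]
    simp
  have hmeas : Measurable fun u : Fin g → ℝ => ENNReal.ofReal (∏ a, wt T c a (u a)) :=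
    (Finset.measurable_prod _ fun a _ => (wt_meas T c a).comp (measurable_pi_apply a)).ennreal_ofReal
  have hfm : Measurable f := (LinearMap.continuous_of_finiteDimensional f).measurable
  calc ∫⁻ γ : Fin g → ℝ, {γ : Fin g → ℝ | ∀ i, |∑ a, γ a * y i a| ≤ T}.indicator
        (fun γ => ENNReal.ofReal (∏ j, qq (γ j))) γ
      ≤ ∫⁻ γ : Fin g → ℝ, ENNReal.ofReal (∏ a, wt T c a (f γ a)) := by
        refine lintegral_mono fun γ => ?_
        show {γ : Fin g → ℝ | ∀ i, |∑ a, γ a * y i a| ≤ T}.indicator
          (fun γ => ENNReal.ofReal (∏ j, qq (γ j))) γ ≤ ENNReal.ofReal (∏ a, wt T c a (f γ a))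
        by_cases hγ' : γ ∈ {γ : Fin g → ℝ | ∀ i, |∑ a, γ a * y i a| ≤ T}
        swap
        · rw [Set.indicator_of_notMem hγ']
          exact zero_le
        have hγ : ∀ i, |∑ a, γ a * y i a| ≤ T := hγ'
        rw [Set.indicator_of_mem hγ']
        refine ENNReal.ofReal_le_ofReal ?_
        refine Finset.prod_le_prod (fun j _ => qq_nonneg _) fun a _ => ?_
        by_cases ha : ∃ j, c j = a
        · obtain ⟨j, rfl⟩ := ha
          unfold wt
          rw [if_pos ⟨j, rfl⟩, hfc, Set.indicator_of_mem]
          · exact qq_le_one _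
          · exact abs_le.1 (hγ j)
        · unfold wt
          rw [if_neg ha, hfn γ a ha]
    _ = ∫⁻ u : Fin g → ℝ, ENNReal.ofReal (∏ a, wt T c a (u a)) ∂(Measure.map f volume) :=
        (lintegral_map hmeas hfm).symm
    _ = ENNReal.ofReal |(LinearMap.det f)⁻¹| *
        ∫⁻ u : Fin g → ℝ, ENNReal.ofReal (∏ a, wt T c a (u a)) := by
        rw [Measure.map_linearMap_addHaar_eq_smul_addHaar _ (by rw [hfdet]; exact hdet0),
          lintegral_smul_measure, smul_eq_mul]
    _ = ENNReal.ofReal |(LinearMap.det f)⁻¹| * ENNReal.ofReal (∏ a, ∫ t, wt T c a t) := by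
        have hI : Integrable fun u : Fin g → ℝ => ∏ a, wt T c a (u a) :=
          Integrable.fintype_prod (f := fun a => wt T c a) fun a => wt_int T c a
        rw [← ofReal_integral_eq_lintegral_ofReal hI
          (Filter.Eventually.of_forall fun u => Finset.prod_nonneg fun a _ => wt_nonneg T c a _),
          integral_fintype_prod_volume_eq_prod (fun a => wt T c a)]
    _ ≤ ENNReal.ofReal (6 ^ g * (2 * T) ^ ρ / D) := by
        rw [← ENNReal.ofReal_mul (abs_nonneg _)]
        refine ENNReal.ofReal_le_ofReal ?_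
        have h4 : (univ.filter fun a : Fin g => ∃ j, c j = a).card = ρ := by
          have : (univ.filter fun a : Fin g => ∃ j, c j = a) = univ.image c := by
            ext a
            simp
          rw [this, Finset.card_image_of_injective _ hc, Finset.card_univ, Fintype.card_fin]
        have h5 : (univ.filter fun a : Fin g => ¬ ∃ j, c j = a).card = g - ρ := by
          rw [Finset.filter_not, Finset.card_sdiff_of_subset (Finset.filter_subset _ _), h4,
            Finset.card_univ, Fintype.card_fin]
        have h6 : ∏ a, ∫ t, wt T c a t = (2 * T) ^ ρ * 5 ^ (g - ρ) := by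
          rw [Finset.prod_congr rfl fun a _ => int_wt hT c a, Finset.prod_ite, Finset.prod_const,
            Finset.prod_const, h4, h5]
        have h7 : (5 : ℝ) ^ (g - ρ) ≤ 6 ^ g := by
          calc (5 : ℝ) ^ (g - ρ) ≤ 5 ^ g := pow_le_pow_right₀ (by norm_num) (Nat.sub_le _ _)
            _ ≤ 6 ^ g := pow_le_pow_left₀ (by norm_num) (by norm_num) g
        rw [h6, hfdet, abs_inv]
        calc |(Matrix.of fun i j => y i (c j)).det|⁻¹ * ((2 * T) ^ ρ * 5 ^ (g - ρ))
            ≤ D⁻¹ * ((2 * T) ^ ρ * 6 ^ g) :=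
              mul_le_mul (inv_anti₀ hD hdet) (mul_le_mul_of_nonneg_left h7 (by positivity))
                (by positivity) (by positivity)
          _ = 6 ^ g * (2 * T) ^ ρ / D := by
              rw [div_eq_inv_mul]
              ring

end Pool.Agent.N545.KW
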