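import Mathlib
import Pool.Agent.N367.LE.Stm

/-!
# LE/GU: proper ambiguous ideals of `ℤ[ω]`, `ω ^ 2 = 1 + n ω`, are not principal

A generator gives a solution of `d X ^ 2 - e Y ^ 2 = ± 4` with `d e = n ^ 2 + 4` and `d, e > 1`; there
is none by infinite descent.
-/

set_option autoImplicit false

namespace Pool.Agent.N545.LE

open H419R2 Pool.Agent.N911

/-- infinite descent: `d X ^ 2 - e Y ^ 2 = ± 4` has no solution if `d e = n ^ 2 + 4` and
`d, e > 1` -/
theorem desc (n d e : ℤ) (hn : 0 < n) (hn2 : n % 2 = 1) (hde : d * e = n ^ 2 + 4) (hd : 1 < d)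
    (he : 1 < e) : ∀ (S : ℕ) (X Y : ℤ), d * X ^ 2 + e * Y ^ 2 = S →
    (d * X ^ 2 - e * Y ^ 2 = 4 ∨ d * X ^ 2 - e * Y ^ 2 = -4) → False := by
  have hodd : (d * e) % 2 = 1 := by
    rw [hde]
    obtain ⟨k, hk⟩ : ∃ k, n = 2 * k + 1 := ⟨n / 2, by omega⟩
    rw [hk]
    ring_nf
    omega
  have hd2 : d % 2 = 1 := by
    rcases Int.emod_two_eq_zero_or_one d with h | h
    · rw [Int.mul_emod, h] at hodd
      simp at hodd
    · exact h
  have he2 : e % 2 = 1 := by
    rcases Int.emod_two_eq_zero_or_one e with h | h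
    · rw [Int.mul_emod, h] at hodd
      simp at hodd
    · exact h
  have hnd : ∀ c z : ℤ, 1 < c → c % 2 = 1 → (c * z = 4 ∨ c * z = -4) → False := by
    intro c z hc hc2 h
    have h1 : c ∣ 4 := by
      rcases h with h | h
      · exact ⟨z, h.symm⟩
      · exact ⟨-z, by linarith⟩
    have h2 : c ≤ 4 := Int.le_of_dvd (by norm_num) h1
    interval_cases c <;> omega
  intro S
  induction S using Nat.strong_induction_on with
  | _ S ih =>
    intro X0 Y0 hS0 hp0
    -- positive solution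
    obtain ⟨X, Y, hX, hY, hS, hp⟩ : ∃ X Y : ℤ, 0 ≤ X ∧ 0 ≤ Y ∧ d * X ^ 2 + e * Y ^ 2 = S ∧
        (d * X ^ 2 - e * Y ^ 2 = 4 ∨ d * X ^ 2 - e * Y ^ 2 = -4) :=
      ⟨|X0|, |Y0|, abs_nonneg _, abs_nonneg _, by rw [sq_abs, sq_abs]; exact hS0,
        by rw [sq_abs, sq_abs]; exact hp0⟩
    have hX1 : 1 ≤ X := by
      by_contra h
      have h0 : X = 0 := by omega
      subst h0
      refine hnd e (Y ^ 2) he he2 ?_
      rcases hp with h | h
      · right; linarith
      · left; linarith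
    have hY1 : 1 ≤ Y := by
      by_contra h
      have h0 : Y = 0 := by omega
      subst h0
      refine hnd d (X ^ 2) hd hd2 ?_
      rcases hp with h | h
      · left; linarith
      · right; linarith
    have hpar : X % 2 = Y % 2 := by
      have h1 : (d * X ^ 2 - e * Y ^ 2) % 2 = 0 := by
        rcases hp with h | h <;> rw [h] <;> norm_num
      rcases Int.emod_two_eq_zero_or_one X with h | h <;>
      rcases Int.emod_two_eq_zero_or_one Y with h' | h' <;>
      simp [Int.sub_emod, Int.mul_emod, pow_two, h, h', hd2, he2] at h1 ⊢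
    obtain ⟨X1, hX1'⟩ : ∃ X1, e * Y - n * X = 2 * X1 := by
      refine ⟨(e * Y - n * X) / 2, ?_⟩
      have h1 : (e * Y - n * X) % 2 = 0 := by
        rcases Int.emod_two_eq_zero_or_one X with h | h <;>
        simp [Int.sub_emod, Int.mul_emod, h, ← hpar, hn2, he2]
      omega
    obtain ⟨Y1, hY1'⟩ : ∃ Y1, d * X - n * Y = 2 * Y1 := by
      refine ⟨(d * X - n * Y) / 2, ?_⟩
      have h1 : (d * X - n * Y) % 2 = 0 := by
        rcases Int.emod_two_eq_zero_or_one X with h | h <;>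
        simp [Int.sub_emod, Int.mul_emod, h, ← hpar, hn2, hd2]
      omega
    have h4S : 4 * (d * X1 ^ 2 + e * Y1 ^ 2) =
        (2 * n ^ 2 + 4) * (d * X ^ 2 + e * Y ^ 2) - 4 * n * (n ^ 2 + 4) * (X * Y) := by
      have e1 : 4 * (d * X1 ^ 2 + e * Y1 ^ 2) = d * (2 * X1) ^ 2 + e * (2 * Y1) ^ 2 := by ring
      rw [e1, ← hX1', ← hY1']
      linear_combination (e * Y ^ 2 + d * X ^ 2 - 4 * n * X * Y) * hde
    have h4D : 4 * (d * X1 ^ 2 - e * Y1 ^ 2) = -4 * (d * X ^ 2 - e * Y ^ 2) := by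
      have e1 : 4 * (d * X1 ^ 2 - e * Y1 ^ 2) = d * (2 * X1) ^ 2 - e * (2 * Y1) ^ 2 := by ring
      rw [e1, ← hX1', ← hY1']
      linear_combination (e * Y ^ 2 - d * X ^ 2) * hde
    have hXY : 1 ≤ X * Y := by nlinarith
    have hSS : (S : ℤ) ^ 2 = 16 + 4 * (n ^ 2 + 4) * (X * Y) ^ 2 := by
      rw [← hS, ← hde]
      have h16 : (d * X ^ 2 - e * Y ^ 2) ^ 2 = 16 := by
        rcases hp with h | h <;> rw [h] <;> norm_num
      linear_combination h16
    have hlt : n * (S : ℤ) < 2 * (n ^ 2 + 4) * (X * Y) := by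
      refine lt_of_pow_lt_pow_left₀ 2 (by positivity) ?_
      have e1 : (2 * (n ^ 2 + 4) * (X * Y)) ^ 2 - (n * (S : ℤ)) ^ 2 =
          4 * (16 + 4 * (n ^ 2 + 4) * ((X * Y) ^ 2 - 1)) := by
        linear_combination (-(n ^ 2)) * hSS
      have h1 : 0 ≤ (X * Y) ^ 2 - 1 := by nlinarith
      have h2 : 0 ≤ 4 * (n ^ 2 + 4) * ((X * Y) ^ 2 - 1) := by positivity
      linarith
    have hS1 : d * X1 ^ 2 + e * Y1 ^ 2 < S := by
      rw [hS] at h4S
      nlinarith
    have hS0' : 0 ≤ d * X1 ^ 2 + e * Y1 ^ 2 := by positivity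
    refine ih (d * X1 ^ 2 + e * Y1 ^ 2).toNat (by omega) X1 Y1 (by omega) ?_
    rcases hp with h | h
    · right; linarith
    · left; linarith

theorem gu : Pool.Agent.N367.LE.S_GU := by
  intro n hn hsq hdom d hd hd1 hdn I hI hpr
  obtain ⟨⟨a, ha⟩⟩ := hpr
  have hIa : I = Ideal.span {a} := ha
  rw [hIa, Ideal.span_singleton_pow, Ideal.span_singleton_eq_span_singleton] at hI
  obtain ⟨u, hu⟩ := hI
  -- the norm
  have hnu : IsUnit (QuadraticAlgebra.norm (u : QA 1 (n : ℤ))) := u.isUnit.map QuadraticAlgebra.norm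
  have hN := congrArg QuadraticAlgebra.norm hu
  rw [map_mul, map_pow, QuadraticAlgebra.norm_natCast] at hN
  have hd0 : (0 : ℤ) < d := by exact_mod_cast (by omega : 0 < d)
  have hN2 : QuadraticAlgebra.norm a ^ 2 = (d : ℤ) ^ 2 := by
    rcases Int.isUnit_iff.1 hnu with h | h
    · rw [h, mul_one] at hN
      exact hN
    · rw [h] at hN
      nlinarith [sq_nonneg (QuadraticAlgebra.norm a), pow_pos hd0 2]
  have hNa : QuadraticAlgebra.norm a = d ∨ QuadraticAlgebra.norm a = -d := sq_eq_sq_iff_eq_or_eq_neg.1 hN2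
  obtain ⟨e, he⟩ := hd
  have he1 : 1 < e := by
    by_contra h
    have : d * e ≤ d * 1 := Nat.mul_le_mul_left d (by omega)
    omega
  have hde : (d : ℤ) * e = (n : ℤ) ^ 2 + 4 := by exact_mod_cast he.symm
  have hdsq : Squarefree (d : ℤ) := by
    have h1 : Squarefree d := hsq.squarefree_of_dvd ⟨e, he⟩
    exact Int.squarefree_natCast.2 h1
  have h4 : 4 * QuadraticAlgebra.norm a =
      (2 * a.re + n * a.im) ^ 2 - (d : ℤ) * e * a.im ^ 2 := by
    rw [norm_eq, hde]
    ring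
  have hdX : (d : ℤ) ∣ 2 * a.re + n * a.im := by
    rw [← hdsq.dvd_pow_iff_dvd (two_ne_zero)]
    have h5 : (2 * a.re + n * a.im) ^ 2 =
        4 * QuadraticAlgebra.norm a + (d : ℤ) * e * a.im ^ 2 := by linarith
    rw [h5]
    refine dvd_add ?_ ?_
    · rcases hNa with h | h <;> rw [h]
      · exact dvd_mul_left _ _
      · exact (dvd_neg.2 dvd_rfl).mul_left _
    · rw [mul_assoc]
      exact dvd_mul_right _ _
  obtain ⟨X, hX⟩ := hdX
  rw [hX] at h4
  have h6 : (d : ℤ) * (d * X ^ 2 - e * a.im ^ 2) = 4 * QuadraticAlgebra.norm a := by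
    rw [h4]
    ring
  refine desc n d e (by exact_mod_cast (by omega : 0 < n)) (by omega) hde (by exact_mod_cast hd1)
    (by exact_mod_cast he1) (((d : ℤ) * X ^ 2 + e * a.im ^ 2).toNat) X a.im ?_ ?_
  · rw [Int.toNat_of_nonneg]
    positivity
  · rcases hNa with h | h
    · left
      rw [h] at h6
      have h7 : (d : ℤ) * (d * X ^ 2 - e * a.im ^ 2) = d * 4 := by rw [h6]; ring
      exact mul_left_cancel₀ hd0.ne' h7
    · right
      rw [h] at h6
      have h7 : (d : ℤ) * (d * X ^ 2 - e * a.im ^ 2) = d * (-4) := by rw [h6]; ring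
      exact mul_left_cancel₀ hd0.ne' h7

end Pool.Agent.N545.LE
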