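import Mathlib
import Pool.Agent.N720.SL.Stm
import Pool.Agent.H153R4.Pl
set_option autoImplicit false

/-! (SLICE) from the fibres to the shell: Plancherel in `ℝ^m` -/

namespace Pool.Agent.N545.CYSLICE

open MeasureTheory Set Metric Complex
open scoped ENNReal NNReal RealInnerProductSpace FourierTransform
open Pool.Agent.N720.SL

lemma ex_add (a b : ℝ) : ex (a + b) = ex a * ex b := by
  unfold ex
  rw [← Complex.exp_add]
  congr 1
  push_cast
  ring

lemma norm_ex (a : ℝ) : ‖ex a‖ = 1 := by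
  unfold ex
  exact Complex.norm_exp_ofReal_mul_I _

lemma continuous_ex : Continuous ex := by
  unfold ex
  fun_prop

section geo

variable {m k : ℕ} (ι : E m →ₗᵢ[ℝ] E (m + k)) (κ : E k →ₗᵢ[ℝ] E (m + k))
  (h : ∀ y w, ⟪ι y, κ w⟫ = 0)

include h

lemma inner_eq (v y : E m) (w t : E k) : ⟪ι v + κ w, ι y + κ t⟫ = ⟪v, y⟫ + ⟪w, t⟫ := by
  rw [inner_add_left, inner_add_right, inner_add_right, ι.inner_map_map, κ.inner_map_map, h v t,
    real_inner_comm (ι y) (κ w), h y w]
  ring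

lemma norm_sq_eq (v : E m) (w : E k) : ‖ι v + κ w‖ ^ 2 = ‖v‖ ^ 2 + ‖w‖ ^ 2 := by
  rw [← real_inner_self_eq_norm_sq, inner_eq ι κ h, real_inner_self_eq_norm_sq,
    real_inner_self_eq_norm_sq]

lemma cp_eq (v : E m) (w : E k) : cp κ (ι v + κ w) = w := by
  refine ext_inner_right ℝ fun z => ?_
  unfold cp
  rw [ContinuousLinearMap.adjoint_inner_left]
  change ⟪ι v + κ w, κ z⟫ = ⟪w, z⟫
  rw [inner_add_left, h, κ.inner_map_map, zero_add]

/-- the linear isometry `(v, w) ↦ ι v + κ w` -/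
noncomputable def lin : WithLp 2 (E m × E k) →ₗᵢ[ℝ] E (m + k) where
  toFun z := ι z.fst + κ z.snd
  map_add' x y := by simp only [WithLp.add_fst, WithLp.add_snd, map_add]; abel
  map_smul' c x := by simp
  norm_map' x := by
    have h1 : ‖ι x.fst + κ x.snd‖ ^ 2 = ‖x‖ ^ 2 := by
      rw [norm_sq_eq ι κ h, WithLp.prod_norm_sq_eq_of_L2]
    have h2 := (sq_eq_sq₀ (norm_nonneg (ι x.fst + κ x.snd)) (norm_nonneg x)).mp h1
    simpa using h2

omit h in
lemma finrank_eq : Module.finrank ℝ (WithLp 2 (E m × E k)) = Module.finrank ℝ (E (m + k)) := by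
  have e := (WithLp.linearEquiv 2 ℝ (E m × E k)).finrank_eq
  rw [e, Module.finrank_prod]
  simp

noncomputable def Phi : E m × E k ≃ᵐ E (m + k) :=
  (MeasurableEquiv.toLp 2 (E m × E k)).trans
    ((lin ι κ h).toLinearIsometryEquiv finrank_eq).toMeasurableEquiv

lemma Phi_apply (p : E m × E k) : Phi ι κ h p = ι p.1 + κ p.2 := by
  rfl

lemma Phi_mp : MeasurePreserving (Phi ι κ h) (volume : Measure (E m × E k))
    (volume : Measure (E (m + k))) := by
  have h1 : MeasurePreserving (MeasurableEquiv.toLp 2 (E m × E k)) :=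
    WithLp.volume_preserving_toLp (E m) (E k)
  have h2 := ((lin ι κ h).toLinearIsometryEquiv finrank_eq).measurePreserving
  exact h1.trans h2

end geo

/-- the transform in the first variable -/
noncomputable def gv {m k : ℕ} (G : E m × E k → ℂ) (v : E m) (t : E k) : ℂ :=
  ∫ y, G (y, t) * ex ⟪v, y⟫

lemma meas_ker {m k : ℕ} (G : E m × E k → ℂ) (hG : Measurable G) :
    StronglyMeasurable fun q : (E m × E k) × E m => G (q.2, q.1.2) * ex ⟪q.1.1, q.2⟫ := by
  apply Measurable.stronglyMeasurable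
  apply Measurable.mul
  · exact hG.comp (by fun_prop)
  · apply continuous_ex.measurable.comp
    apply Continuous.measurable
    fun_prop

lemma gv_meas2 {m k : ℕ} (G : E m × E k → ℂ) (hG : Measurable G) :
    StronglyMeasurable fun p : E m × E k => gv G p.1 p.2 := by
  exact (meas_ker G hG).integral_prod_right

lemma gv_meas {m k : ℕ} (G : E m × E k → ℂ) (hG : Measurable G) (v : E m) :
    Measurable (gv G v) :=
  (gv_meas2 G hG).measurable.comp (measurable_const.prodMk measurable_id)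

lemma int_mul_ex {m k : ℕ} (ν : Measure (E k)) [SFinite ν] (G : E m × E k → ℂ) (hG : Measurable G)
    (hi : Integrable G ((volume : Measure (E m)).prod ν)) (φ : E m × E k → ℝ) (hφ : Continuous φ) :
    Integrable (fun p => G p * ex (φ p)) ((volume : Measure (E m)).prod ν) := by
  refine hi.mono ?_ ?_
  · exact (hG.mul (continuous_ex.measurable.comp hφ.measurable)).aestronglyMeasurable
  · refine Filter.Eventually.of_forall fun p => ?_
    rw [norm_mul, norm_ex, mul_one]

lemma gv_int {m k : ℕ} (ν : Measure (E k)) [SFinite ν] (G : E m × E k → ℂ) (hG : Measurable G)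
    (hi : Integrable G ((volume : Measure (E m)).prod ν)) (v : E m) : Integrable (gv G v) ν := by
  have h1 := int_mul_ex ν G hG hi (fun p => ⟪v, p.1⟫) (by fun_prop)
  exact h1.integral_prod_right

lemma fubini {m k : ℕ} (ι : E m →ₗᵢ[ℝ] E (m + k)) (κ : E k →ₗᵢ[ℝ] E (m + k))
    (h : ∀ y w, ⟪ι y, κ w⟫ = 0) (ν : Measure (E k)) [SFinite ν] (G : E m × E k → ℂ)
    (hG : Measurable G) (hi : Integrable G ((volume : Measure (E m)).prod ν)) (v : E m) (w : E k) :
    ∫ p, G p * ex ⟪ι v + κ w, ι p.1 + κ p.2⟫ ∂((volume : Measure (E m)).prod ν) =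
      hat ν (gv G v) w := by
  have h1 := int_mul_ex ν G hG hi (fun p => ⟪ι v + κ w, ι p.1 + κ p.2⟫) (by fun_prop)
  rw [integral_prod_symm _ h1]
  unfold hat gv
  congr 1
  ext t
  rw [← integral_mul_const]
  congr 1
  ext y
  rw [inner_eq ι κ h, ex_add]
  ring

lemma gv_fourier {m k : ℕ} (G : E m × E k → ℂ) (v : E m) (t : E k) :
    gv G v t = 𝓕 (fun y => G (y, t)) (-v) := by
  rw [Real.fourier_eq']
  unfold gv ex
  congr 1
  ext y
  rw [smul_eq_mul, mul_comm]
  congr 2
  rw [inner_neg_right, real_inner_comm]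
  push_cast
  ring

lemma planch {m k : ℕ} (G : E m × E k → ℂ) (M : ℝ) (hM : ∀ p, ‖G p‖ ≤ M) (t : E k)
    (hi : Integrable fun y => G (y, t)) :
    ∫⁻ v, ‖gv G v t‖ₑ ^ 2 = ∫⁻ y, ‖G (y, t)‖ₑ ^ 2 := by
  have h2 : MemLp (fun y => G (y, t)) 2 := by
    rw [memLp_two_iff_integrable_sq_norm hi.1]
    refine (hi.norm.const_mul M).mono' (hi.1.norm.pow 2) ?_
    refine Filter.Eventually.of_forall fun y => ?_
    rw [Real.norm_of_nonneg (by positivity), sq]
    exact mul_le_mul_of_nonneg_right (hM _) (norm_nonneg _)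
  rw [← Pool.Agent.H153R4.plancherel _ hi h2]
  rw [← lintegral_neg_eq_self (fun ξ => ‖𝓕 (fun y => G (y, t)) ξ‖ₑ ^ 2)]
  congr 1
  ext v
  rw [gv_fourier]

theorem main : S_SLICE := by
  intro m k ι κ h ν hν θ δ B hθ hδ hδ1 hyp G hG hi ⟨M, hM⟩
  set F : E (m + k) → ℝ≥0∞ := fun x => ENNReal.ofReal ((‖cp κ x‖ + Real.sqrt δ) ^ θ) *
      ‖∫ p, G p * ex ⟪x, ι p.1 + κ p.2⟫ ∂((volume : Measure (E m)).prod ν)‖ₑ ^ 2 with hF
  set S : Set (E (m + k)) := {x : E (m + k) | |‖x‖ - 1| ≤ δ} with hS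
  have hSm : MeasurableSet S := by
    apply IsClosed.measurableSet
    exact isClosed_le (by fun_prop) continuous_const
  -- the integrand in the coordinates
  have hFe : ∀ v w, F (ι v + κ w) = ENNReal.ofReal ((‖w‖ + Real.sqrt δ) ^ θ) *
      ‖hat ν (gv G v) w‖ₑ ^ 2 := by
    intro v w
    simp only [hF]
    rw [fubini ι κ h ν G hG hi, cp_eq ι κ h]
  have hSe : ∀ v w, ι v + κ w ∈ S → ‖v‖ ^ 2 + ‖w‖ ^ 2 ≤ (1 + δ) ^ 2 ∧
      (1 - δ) ^ 2 ≤ ‖v‖ ^ 2 + ‖w‖ ^ 2 := by
    intro v w hx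
    have hx' : |‖ι v + κ w‖ - 1| ≤ δ := hx
    rw [abs_le] at hx'
    rw [← norm_sq_eq ι κ h]
    constructor
    · exact pow_le_pow_left₀ (norm_nonneg _) (by linarith) 2
    · exact pow_le_pow_left₀ (by linarith) (by linarith) 2
  have hslice : ∀ v : E m, ∫⁻ w, S.indicator F (ι v + κ w) ≤ B * ∫⁻ t, ‖gv G v t‖ₑ ^ 2 ∂ν := by
    intro v
    by_cases hb : 0 ≤ (1 + δ) ^ 2 - ‖v‖ ^ 2
    · have hr := hyp (Real.sqrt ((1 + δ) ^ 2 - ‖v‖ ^ 2)) (Real.sqrt_nonneg _) (by
        rw [Real.sqrt_le_left (by norm_num)]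
        nlinarith [sq_nonneg ‖v‖]) (gv G v) (gv_meas G hG v) (gv_int ν G hG hi v)
      rw [Real.sq_sqrt hb] at hr
      refine le_trans ?_ hr
      have hTm : MeasurableSet {w : E k | (1 + δ) ^ 2 - ‖v‖ ^ 2 - 4 * δ ≤ ‖w‖ ^ 2 ∧
          ‖w‖ ^ 2 ≤ (1 + δ) ^ 2 - ‖v‖ ^ 2} := by
        apply IsClosed.measurableSet
        exact (isClosed_le continuous_const (continuous_norm.pow 2)).inter
          (isClosed_le (continuous_norm.pow 2) continuous_const)
      rw [← lintegral_indicator hTm]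
      refine lintegral_mono fun w => ?_
      by_cases hw : ι v + κ w ∈ S
      · have h3 := hSe v w hw
        rw [indicator_of_mem hw, indicator_of_mem (show w ∈ {w : E k |
          (1 + δ) ^ 2 - ‖v‖ ^ 2 - 4 * δ ≤ ‖w‖ ^ 2 ∧ ‖w‖ ^ 2 ≤ (1 + δ) ^ 2 - ‖v‖ ^ 2} from
          ⟨by nlinarith [h3.2], by linarith [h3.1]⟩), hFe]
      · rw [indicator_of_notMem hw]
        exact zero_le
    · have hz : ∀ w, S.indicator F (ι v + κ w) = 0 := by
        intro w
        apply indicator_of_notMem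
        intro hw
        have h3 := hSe v w hw
        nlinarith [h3.1, sq_nonneg ‖w‖]
      simp [hz]
  have hFm : Measurable F := by
    rw [hF]
    refine Measurable.mul (f := fun x : E (m + k) => ENNReal.ofReal ((‖cp κ x‖ + Real.sqrt δ) ^ θ))
      (g := fun x : E (m + k) =>
        ‖∫ p, G p * ex ⟪x, ι p.1 + κ p.2⟫ ∂((volume : Measure (E m)).prod ν)‖ₑ ^ 2) ?_ ?_
    · apply ENNReal.measurable_ofReal.comp
      have hc : Continuous (cp κ) := by
        unfold cp
        exact ContinuousLinearMap.continuous _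
      have hm : Measurable fun x : E (m + k) => ‖cp κ x‖ + Real.sqrt δ :=
        (hc.norm.add continuous_const).measurable
      exact hm.pow_const θ
    · have hk : StronglyMeasurable fun q : E (m + k) × (E m × E k) =>
          G q.2 * ex ⟪q.1, ι q.2.1 + κ q.2.2⟫ := by
        apply Measurable.stronglyMeasurable
        apply Measurable.mul
        · exact hG.comp measurable_snd
        · apply continuous_ex.measurable.comp
          apply Continuous.measurable
          fun_prop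
      have hk2 : StronglyMeasurable fun x : E (m + k) =>
          ∫ p, G p * ex ⟪x, ι p.1 + κ p.2⟫ ∂((volume : Measure (E m)).prod ν) :=
        hk.integral_prod_right
      exact hk2.measurable.enorm.pow_const 2
  have hg2 : Measurable fun p : E m × E k => ‖gv G p.1 p.2‖ₑ ^ 2 :=
    (gv_meas2 G hG).measurable.enorm.pow_const 2
  calc ∫⁻ x in S, F x = ∫⁻ x, S.indicator F x := (lintegral_indicator hSm F).symm
    _ = ∫⁻ p, S.indicator F (Phi ι κ h p) := by
        rw [← (Phi_mp ι κ h).map_eq, lintegral_map_equiv]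
    _ = ∫⁻ v, ∫⁻ w, S.indicator F (ι v + κ w) := by
        have hm : Measurable fun p : E m × E k => S.indicator F (Phi ι κ h p) :=
          (hFm.indicator hSm).comp (Phi ι κ h).measurable
        rw [Measure.volume_eq_prod, lintegral_prod _ hm.aemeasurable]
        rfl
    _ ≤ ∫⁻ v, B * ∫⁻ t, ‖gv G v t‖ₑ ^ 2 ∂ν := lintegral_mono hslice
    _ = B * ∫⁻ v, ∫⁻ t, ‖gv G v t‖ₑ ^ 2 ∂ν := lintegral_const_mul _ hg2.lintegral_prod_right'
    _ = B * ∫⁻ t, (∫⁻ v, ‖gv G v t‖ₑ ^ 2) ∂ν := by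
        rw [lintegral_lintegral_swap]
        exact hg2.aemeasurable
    _ = B * ∫⁻ t, (∫⁻ y, ‖G (y, t)‖ₑ ^ 2) ∂ν := by
        congr 1
        apply lintegral_congr_ae
        filter_upwards [hi.prod_left_ae] with t ht
        exact planch G M hM t ht
    _ = B * ∫⁻ p, ‖G p‖ₑ ^ 2 ∂((volume : Measure (E m)).prod ν) := by
        rw [lintegral_prod_symm _ (hG.enorm.pow_const 2).aemeasurable]

end Pool.Agent.N545.CYSLICE
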