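import Pool.Agent.N988.ET.Stm
import Pool.Agent.N988.EC.BO

/-! ET/B1: probabilities of revealed states. -/

set_option autoImplicit false

namespace Pool.Agent.N545.ET

open MeasureTheory
open Pool.Agent.N988.EA Pool.Agent.N988.EC Pool.Agent.N988.EP Pool.Agent.N988.ES Pool.Agent.N988.ET

noncomputable section

/-- the weight of a revealed state -/
def B1_wt (p : ℝ) : Option Bool → ℝ
  | none => 1
  | some false => p
  | some true => 1 - p

theorem B1_coin {p : ℝ} (h0 : 0 < p) (h1 : p < 1) (o : Option Bool) :
    (coin (1 - p) {x | ∀ y, o = some y → x = y}).toReal = B1_wt p o := by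
  have : IsProbabilityMeasure (coin (1 - p)) := coin_prob (by linarith) (by linarith)
  rcases o with _ | x
  · have h : {x : Bool | ∀ y, (none : Option Bool) = some y → x = y} = Set.univ := by
      apply Set.eq_univ_of_forall
      intro x y hy
      exact absurd hy (by simp)
    rw [h, measure_univ]
    simp [B1_wt]
  · have h : {z : Bool | ∀ y, (some x : Option Bool) = some y → z = y} = {x} := by
      ext z
      constructor
      · intro hz
        exact hz x rfl
      · intro hz y hy
        rw [Set.mem_singleton_iff] at hz
        rw [hz]
        exact Option.some.inj hy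
    rw [h]
    cases x
    · simp [coin, B1_wt, h0.le]
    · simp [coin, B1_wt, h1.le]

theorem B1_pf {b n : ℕ} {p : ℝ} (h0 : 0 < p) (h1 : p < 1) (a : Edge b n → Option Bool) :
    pf p a = ∏ e, B1_wt p (a e) := by
  have : IsProbabilityMeasure (coin (1 - p)) := coin_prob (by linarith) (by linarith)
  have hset : {w : Edge b n → Bool | Fits a w} =
      Set.pi Set.univ (fun e => {x | ∀ y, a e = some y → x = y}) := by
    ext w
    constructor
    · intro h e _ y hy
      exact h e y hy
    · intro h e y hy
      exact h e (Set.mem_univ e) y hy
  unfold pf iid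
  rw [hset, measureReal_def, Measure.pi_pi, ENNReal.toReal_prod]
  exact Finset.prod_congr rfl fun e _ => B1_coin h0 h1 (a e)

theorem B1_sing {b n : ℕ} {p : ℝ} (h0 : 0 < p) (h1 : p < 1) (w : Edge b n → Bool) :
    0 < (iid (coin (1 - p)) b n).real {w} := by
  have : IsProbabilityMeasure (coin (1 - p)) := coin_prob (by linarith) (by linarith)
  have h : pf p (fun e => some (w e)) = (iid (coin (1 - p)) b n).real {w} := by
    unfold pf
    congr 1
    ext v
    constructor
    · intro hv
      exact funext fun e => hv e (w e) rfl
    · intro hv e x hx
      rw [Set.mem_singleton_iff] at hv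
      rw [hv]
      exact Option.some.inj hx
  rw [← h, B1_pf h0 h1]
  apply Finset.prod_pos
  intro e _
  show 0 < B1_wt p (some (w e))
  cases w e
  · exact h0
  · show 0 < 1 - p
    linarith

theorem B1_pos {b n : ℕ} {p : ℝ} (h0 : 0 < p) (h1 : p < 1) {S : Set (Edge b n → Bool)} {w : Edge b n → Bool}
    (hw : w ∈ S) : 0 < (iid (coin (1 - p)) b n).real S := by
  have : IsProbabilityMeasure (coin (1 - p)) := coin_prob (by linarith) (by linarith)
  exact (B1_sing h0 h1 w).trans_le (measureReal_mono (Set.singleton_subset_iff.2 hw))

theorem B1_cross {b n : ℕ} (w : Edge b n → Bool) : cross w = 1 ∨ cross w = -1 := by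
  unfold cross
  split_ifs
  · exact Or.inl rfl
  · exact Or.inr rfl

open Classical in
theorem B1_path {b n : ℕ} (a : Edge b n → Option Bool) (D : Finset (Edge b n)) :
    ∀ w w' : Edge b n → Bool, (∀ e, e ∉ D → w e = w' e) → Fits a w → Fits a w' → cross w ≠ cross w' →
      ∃ (v : Edge b n → Bool) (e : Edge b n), Fits a v ∧ a e = none ∧
        cross (Function.update v e (!v e)) ≠ cross v := by
  induction D using Finset.induction_on with
  | empty =>
    intro w w' h _ _ hne
    exact absurd (congrArg cross (funext fun e => h e (Finset.notMem_empty e))) hne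
  | insert e D he ih =>
    intro w w' h hw hw' hne
    obtain ⟨v, hv⟩ : ∃ v, v = Function.update w e (w' e) := ⟨_, rfl⟩
    have hve : v e = w' e := by rw [hv, Function.update_self]
    have hvo : ∀ e', e' ≠ e → v e' = w e' := fun e' h' => by rw [hv, Function.update_of_ne h']
    have hfit : Fits a v := by
      intro e' x hx
      by_cases h' : e' = e
      · rw [h', hve]
        rw [h'] at hx
        exact hw' e x hx
      · rw [hvo e' h']
        exact hw e' x hx
    by_cases hc : cross v = cross w'
    · have hne' : w e ≠ w' e := by
        intro h'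
        apply hne
        rw [← hc]
        congr 1
        funext e'
        by_cases h'' : e' = e
        · rw [h'', hve, h']
        · rw [hvo e' h'']
      have hnot : w' e = !w e := by
        cases hh : w e <;> cases hh' : w' e <;> simp_all
      refine ⟨w, e, hw, ?_, ?_⟩
      · rcases hae : a e with _ | x
        · rfl
        · exact absurd ((hw e x hae).trans (hw' e x hae).symm) hne'
      · rw [← hnot, ← hv, hc]
        exact hne.symm
    · refine ih v w' (fun e' h' => ?_) hfit hw' hc
      by_cases h'' : e' = e
      · rw [h'', hve]
      · rw [hvo e' h'']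
        apply h e'
        rw [Finset.mem_insert, not_or]
        exact ⟨h'', h'⟩

theorem t_B1 : S_B1 := by
  classical
  intro b n hb p h0 h1
  have : IsProbabilityMeasure (coin (1 - p)) := coin_prob (by linarith) (by linarith)
  have hfits : ∀ a : Edge b n → Option Bool, ∃ w, Fits a w := fun a =>
    ⟨fun e => (a e).getD false, fun e x hx => by simp [hx]⟩
  have hmeas : ∀ S : Set (Edge b n → Bool), MeasurableSet S := fun S => S.toFinite.measurableSet
  have hle : ∀ a : Edge b n → Option Bool, px p a ≤ pf p a := fun a =>
    measureReal_mono fun w hw => hw.1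
  -- the difference
  have hdiff : ∀ a : Edge b n → Option Bool,
      pf p a = px p a + (iid (coin (1 - p)) b n).real {w | Fits a w ∧ cross w ≠ 1} := by
    intro a
    unfold pf px
    rw [← measureReal_union]
    · congr 1
      ext w
      constructor
      · intro hw
        by_cases h : cross w = 1
        · exact Or.inl ⟨hw, h⟩
        · exact Or.inr ⟨hw, h⟩
      · rintro (hw | hw)
        · exact hw.1
        · exact hw.1
    · rw [Set.disjoint_left]
      intro w h2 h3
      exact h3.2 h2.2
    · exact hmeas _
  refine ⟨fun a => ⟨?_, measureReal_nonneg, hle a⟩, fun a e hae => ⟨?_, ?_, ?_⟩, fun a => ⟨?_, ?_⟩,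
    fun a e => ⟨measureReal_nonneg, fun hae hk => ?_⟩, fun a hk => ?_⟩
  · obtain ⟨w, hw⟩ := hfits a
    exact B1_pos h0 h1 (S := {w | Fits a w}) hw
  · rw [B1_pf h0 h1, B1_pf h0 h1, ← Finset.mul_prod_erase Finset.univ _ (Finset.mem_univ e),
      ← Finset.mul_prod_erase Finset.univ (fun e => B1_wt p (a e)) (Finset.mem_univ e), Function.update_self,
      hae]
    show p * _ = p * (1 * _)
    rw [one_mul]
    congr 1
    apply Finset.prod_congr rfl
    intro e' he'
    rw [Function.update_of_ne (Finset.ne_of_mem_erase he')]
  · rw [B1_pf h0 h1, B1_pf h0 h1, ← Finset.mul_prod_erase Finset.univ _ (Finset.mem_univ e),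
      ← Finset.mul_prod_erase Finset.univ (fun e => B1_wt p (a e)) (Finset.mem_univ e), Function.update_self,
      hae]
    show (1 - p) * _ = (1 - p) * (1 * _)
    rw [one_mul]
    congr 1
    apply Finset.prod_congr rfl
    intro e' he'
    rw [Function.update_of_ne (Finset.ne_of_mem_erase he')]
  · unfold px
    rw [← measureReal_union]
    · congr 1
      ext w
      have key : ∀ x : Bool, Fits (Function.update a e (some x)) w ↔ (Fits a w ∧ w e = x) := by
        intro x
        constructor
        · intro h
          constructor
          · intro e' y hy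
            have hne : e' ≠ e := by
              rintro rfl
              rw [hae] at hy
              exact absurd hy (by simp)
            exact h e' y (by rw [Function.update_of_ne hne]; exact hy)
          · exact h e x (by rw [Function.update_self])
        · rintro ⟨h, hx⟩ e' y hy
          by_cases he' : e' = e
          · subst he'
            rw [Function.update_self] at hy
            rw [hx]
            exact Option.some.inj hy
          · rw [Function.update_of_ne he'] at hy
            exact h e' y hy
      constructor
      · rintro (hw | hw)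
        · exact ⟨((key false).1 hw.1).1, hw.2⟩
        · exact ⟨((key true).1 hw.1).1, hw.2⟩
      · intro hw
        rcases hwe : w e with _ | _
        · exact Or.inl ⟨(key false).2 ⟨hw.1, hwe⟩, hw.2⟩
        · exact Or.inr ⟨(key true).2 ⟨hw.1, hwe⟩, hw.2⟩
    · rw [Set.disjoint_left]
      intro w h2 h3
      have e1 := h2.1 e false (by rw [Function.update_self])
      have e2 := h3.1 e true (by rw [Function.update_self])
      rw [e1] at e2
      exact absurd e2 (by simp)
    · exact hmeas _
  · -- known implies
    intro hk
    by_cases h : ∃ w, Fits a w ∧ cross w = 1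
    · right
      obtain ⟨w, hw, hc⟩ := h
      unfold px pf
      congr 1
      ext v
      constructor
      · exact fun hv => hv.1
      · exact fun hv => ⟨hv, (hk v w hv hw).trans hc⟩
    · left
      have he : {w : Edge b n → Bool | Fits a w ∧ cross w = 1} = ∅ := by
        apply Set.eq_empty_of_forall_notMem
        intro w hw
        exact h ⟨w, hw⟩
      unfold px
      rw [he, measureReal_empty]
  · -- and conversely
    intro h w w' hw hw'
    rcases h with h | h
    · have hn : ∀ v, Fits a v → cross v = -1 := by
        intro v hv
        rcases B1_cross v with h2 | h2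
        · exfalso
          have := B1_pos h0 h1 (S := {w | Fits a w ∧ cross w = 1}) (w := v) ⟨hv, h2⟩
          unfold px at h
          linarith
        · exact h2
      rw [hn w hw, hn w' hw']
    · have hn : ∀ v, Fits a v → cross v = 1 := by
        intro v hv
        by_contra h2
        have h3 := B1_pos h0 h1 (S := {w | Fits a w ∧ cross w ≠ 1}) (w := v) ⟨hv, h2⟩
        have h4 := hdiff a
        linarith
      rw [hn w hw, hn w' hw']
  · have he : {w : Edge b n → Bool | Fits a w ∧ e ∈ piv w} = ∅ := by
      apply Set.eq_empty_of_forall_notMem
      rintro w ⟨hw, hp⟩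
      apply hp
      apply hk _ _ _ hw
      intro e' x hx
      have hne : e' ≠ e := by
        rintro rfl
        rw [hae] at hx
        exact absurd hx (by simp)
      rw [Function.update_of_ne hne]
      exact hw e' x hx
    unfold pp
    rw [he, measureReal_empty]
  · unfold Known at hk
    push Not at hk
    obtain ⟨w, w', hw, hw', hne⟩ := hk
    obtain ⟨v, e, hv, hae, hp⟩ := B1_path a Finset.univ w w' (fun e h => absurd (Finset.mem_univ e) h) hw hw' hne
    exact ⟨e, hae, B1_pos h0 h1 (S := {w | Fits a w ∧ e ∈ piv w}) (w := v) ⟨hv, hp⟩⟩

end

end Pool.Agent.N545.ET
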