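import Pool.Agent.N404.KL.Stm
import Pool.Agent.N400.LF_LOW

set_option autoImplicit false

/-!
# Project KL, part LOWB: lower bound for balanced signings
-/

namespace Pool.Agent.N545.KL.LOWB

open Finset Classical Pool.Agent.N404.LF Pool.Agent.N404.KL Pool.Agent.N400.LFLOW

variable {J : Type} [Fintype J] [DecidableEq J]

/-- The product over the columns of an array. -/
noncomputable def G {X : Type} [Fintype X] (W : (J → Bool) → ℝ) (w : J → X → Bool) : ℝ :=
  ∏ a, W (fun j => w j a)

lemma G_nonneg {X : Type} [Fintype X] {W : (J → Bool) → ℝ} (hW : ∀ s, 0 ≤ W s)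
    (w : J → X → Bool) : 0 ≤ G W w :=
  prod_nonneg fun _ _ => hW _

lemma sum_G (W : (J → Bool) → ℝ) (M : ℕ) :
    ∑ u : J → Fin M → Bool, G W u = (∑ s, W s) ^ M := by
  rw [Fintype.sum_pow, ← (Equiv.piComm (fun (_ : Fin M) (_ : J) => Bool)).sum_comp]
  rfl

/-- The number of the values `true` and `false`. -/
lemma cnt_false {N : ℕ} (F : Fin N → Bool) : cnt F true + cnt F false = N := by
  unfold cnt
  have h := card_filter_add_card_filter_not (s := (univ : Finset (Fin N))) (fun x => F x = true)
  rw [card_univ, Fintype.card_fin] at h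
  refine Eq.trans ?_ h
  congr 1
  · congr
  · congr 1
    ext x
    simp

lemma cnt_lt {M : ℕ} (u : Fin M → Bool) : cnt u true < M + 1 := by
  have := cnt_false u
  omega

/-- The numbers of the values `true` in the rows. -/
noncomputable def ty {M : ℕ} (u : J → Fin M → Bool) : J → Fin (M + 1) :=
  fun j => ⟨cnt (u j) true, cnt_lt _⟩

/-- The two halves. -/
def hv (M : ℕ) : Fin (2 * M) ≃ Fin M ⊕ Fin M :=
  (finSumFinEquiv.trans (finCongr (two_mul M).symm)).symm

/-- The array composed of two halves. -/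
def app {M : ℕ} (p : (J → Fin M → Bool) × (J → Fin M → Bool)) : J → Fin (2 * M) → Bool :=
  fun j a => Sum.elim (p.1 j) (fun b => !(p.2 j b)) (hv M a)

lemma app_inj {M : ℕ} : Function.Injective (app (J := J) (M := M)) := by
  intro p q h
  have h1 : ∀ j a, Sum.elim (p.1 j) (fun b => !(p.2 j b)) (hv M a) =
      Sum.elim (q.1 j) (fun b => !(q.2 j b)) (hv M a) := fun j a => congrFun (congrFun h j) a
  apply Prod.ext
  · funext j b
    have := h1 j ((hv M).symm (Sum.inl b))
    simpa using this
  · funext j b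
    have := h1 j ((hv M).symm (Sum.inr b))
    simpa using this

lemma G_app {M : ℕ} {W : (J → Bool) → ℝ} (hs : ∀ s, W (fun j => !(s j)) = W s)
    (p : (J → Fin M → Bool) × (J → Fin M → Bool)) : G W (app p) = G W p.1 * G W p.2 := by
  unfold G app
  rw [(hv M).prod_comp (fun b => W (fun j => Sum.elim (p.1 j) (fun b => !(p.2 j b)) b)),
    Fintype.prod_sum_type]
  congr 1
  refine prod_congr rfl fun b _ => ?_
  exact hs (fun j => p.2 j b)

lemma cnt_app {M : ℕ} (p : (J → Fin M → Bool) × (J → Fin M → Bool)) (h : ty p.1 = ty p.2) (j : J) :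
    cnt (app p j) true = M := by
  have h1 : cnt (p.1 j) true = cnt (p.2 j) true := congrArg Fin.val (congrFun h j)
  have h2 := cnt_false (p.2 j)
  have h3 : cnt (app p j) true = cnt (p.1 j) true + cnt (p.2 j) false := by
    unfold cnt app
    rw [card_filter, card_filter, card_filter]
    refine (Fintype.sum_equiv (hv M) _ (fun b => if Sum.elim (p.1 j) (fun b => !(p.2 j b)) b = true
      then (1 : ℕ) else 0) (fun x => by split_ifs <;> rfl)).trans ?_
    rw [Fintype.sum_sum_type]
    congr 1
    · refine sum_congr rfl fun b _ => ?_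
      simp only [Sum.elim_inl]
      split_ifs <;> rfl
    · refine sum_congr rfl fun b _ => ?_
      cases h4 : p.2 j b <;> simp [h4]
  omega

/-- The balanced arrays. -/
noncomputable def Bl (J : Type) [Fintype J] [DecidableEq J] (M : ℕ) : Finset (J → Fin (2 * M) → Bool) :=
  univ.filter fun w => ∀ j, cnt (w j) true = M

lemma halves {M : ℕ} {W : (J → Bool) → ℝ} (hW : ∀ s, 0 ≤ W s)
    (hs : ∀ s, W (fun j => !(s j)) = W s) :
    ((∑ s, W s) ^ M) ^ 2 ≤ ((M : ℝ) + 1) ^ Fintype.card J * ∑ w ∈ Bl J M, G W w := by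
  set g : (J → Fin (M + 1)) → ℝ := fun v =>
    ∑ u ∈ univ.filter (fun u : J → Fin M → Bool => ty u = v), G W u with hg
  have h1 : ∑ v, g v = (∑ s, W s) ^ M := by
    rw [← sum_G, hg]
    exact sum_fiberwise univ ty (G W)
  have h2 : (∑ v, g v) ^ 2 ≤ ((M : ℝ) + 1) ^ Fintype.card J * ∑ v, g v ^ 2 := by
    have h3 := sq_sum_le_card_mul_sum_sq (s := (univ : Finset (J → Fin (M + 1)))) (f := g)
    rw [card_univ, Fintype.card_fun, Fintype.card_fin] at h3
    push_cast at h3
    exact h3
  have h3 : ∑ v, g v ^ 2 = ∑ p ∈ univ.filter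
      (fun p : (J → Fin M → Bool) × (J → Fin M → Bool) => ty p.1 = ty p.2), G W p.1 * G W p.2 := by
    have h4 : ∀ v, g v ^ 2 = ∑ u ∈ univ.filter (fun u : J → Fin M → Bool => ty u = v),
        G W u * g (ty u) := by
      intro v
      rw [sq]
      conv_lhs => rw [hg]
      rw [sum_mul]
      refine sum_congr rfl fun u hu => ?_
      rw [mem_filter] at hu
      rw [hu.2]
    rw [sum_congr rfl fun v _ => h4 v, sum_fiberwise univ ty fun u => G W u * g (ty u)]
    rw [sum_filter, Fintype.sum_prod_type]
    refine sum_congr rfl fun u _ => ?_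
    rw [hg]
    dsimp only
    rw [sum_filter, mul_sum]
    refine sum_congr rfl fun u' _ => ?_
    by_cases h5 : ty u' = ty u
    · rw [if_pos h5, if_pos h5.symm]
    · rw [if_neg h5, if_neg (fun h => h5 h.symm), mul_zero]
  have h4 : ∑ p ∈ univ.filter
      (fun p : (J → Fin M → Bool) × (J → Fin M → Bool) => ty p.1 = ty p.2), G W p.1 * G W p.2 ≤
      ∑ w ∈ Bl J M, G W w := by
    rw [sum_congr rfl fun p _ => (G_app hs p).symm, ← sum_image (f := fun w => G W w)
      (g := app (J := J) (M := M)) (fun p _ q _ h => app_inj h)]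
    apply sum_le_sum_of_subset_of_nonneg
    · intro w hw
      rw [mem_image] at hw
      obtain ⟨p, hp, rfl⟩ := hw
      rw [mem_filter] at hp
      unfold Bl
      rw [mem_filter]
      exact ⟨mem_univ _, fun j => cnt_app p hp.2 j⟩
    · intro w _ _
      exact G_nonneg hW w
  rw [← h1]
  refine h2.trans (mul_le_mul_of_nonneg_left ?_ (by positivity))
  rw [h3]
  exact h4

lemma group {M : ℕ} {W : (J → Bool) → ℝ} (hW : ∀ s, 0 ≤ W s)
    (f : J → Fin (2 * M) → Bool) (hf : ∀ j, cnt (f j) true = M) :
    ((M.factorial : ℝ) * M.factorial) ^ Fintype.card J * ∑ w ∈ Bl J M, G W w ≤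
      ∑ π : J → Equiv.Perm (Fin (2 * M)), ∏ a, W (fun j => f j (π j a)) := by
  have h1 : ∑ π : J → Equiv.Perm (Fin (2 * M)), ∏ a, W (fun j => f j (π j a)) =
      ∑ w : J → Fin (2 * M) → Bool, ((univ.filter fun π : J → Equiv.Perm (Fin (2 * M)) =>
        (fun j a => f j (π j a)) = w).card : ℝ) * G W w := by
    rw [← sum_fiberwise univ (fun (π : J → Equiv.Perm (Fin (2 * M))) => fun j a => f j (π j a))]
    refine sum_congr rfl fun w _ => ?_
    rw [← nsmul_eq_mul, ← sum_const]
    refine sum_congr rfl fun π hπ => ?_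
    rw [mem_filter] at hπ
    rw [← hπ.2]
    rfl
  rw [h1, mul_sum]
  have h2 : ∀ w ∈ Bl J M, ((M.factorial : ℝ) * M.factorial) ^ Fintype.card J * G W w =
      ((univ.filter fun π : J → Equiv.Perm (Fin (2 * M)) =>
        (fun j a => f j (π j a)) = w).card : ℝ) * G W w := by
    intro w hw
    congr 1
    unfold Bl at hw
    rw [mem_filter] at hw
    have h3 : (univ.filter fun π : J → Equiv.Perm (Fin (2 * M)) =>
        (fun j a => f j (π j a)) = w) = Fintype.piFinset fun j =>
          univ.filter fun r : Equiv.Perm (Fin (2 * M)) => ∀ x, f j (r x) = w j x := by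
      ext π
      rw [mem_filter, Fintype.mem_piFinset]
      constructor
      · intro h j
        rw [mem_filter]
        exact ⟨mem_univ _, fun x => congrFun (congrFun h.2 j) x⟩
      · intro h
        refine ⟨mem_univ _, ?_⟩
        funext j x
        have := h j
        rw [mem_filter] at this
        exact this.2 x
    rw [h3, Fintype.card_piFinset]
    have h4 : ∀ j, (univ.filter fun r : Equiv.Perm (Fin (2 * M)) => ∀ x, f j (r x) = w j x).card =
        M.factorial * M.factorial := by
      intro j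
      have h5 := cnt_false (f j)
      have h6 := cnt_false (w j)
      have h7 := hf j
      have h8 := hw.2 j
      rw [count_match _ _ (exists_match _ _ _), Fintype.prod_bool, h7]
      · congr 2
        omega
      · intro i
        cases i
        · omega
        · omega
    rw [prod_congr rfl fun j _ => h4 j, prod_const, card_univ]
    push_cast
    rfl
  rw [sum_congr rfl h2]
  apply sum_le_sum_of_subset_of_nonneg (subset_univ _)
  intro w _ _
  exact mul_nonneg (Nat.cast_nonneg _) (G_nonneg hW w)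

lemma fact_le (M : ℕ) : ((2 * M).factorial : ℝ) ≤ 2 ^ (2 * M) * (M.factorial * M.factorial) := by
  have h1 := Nat.choose_mul_factorial_mul_factorial (n := 2 * M) (k := M) (by omega)
  have h2 : 2 * M - M = M := by omega
  rw [h2] at h1
  have h3 : (2 * M).choose M ≤ 2 ^ (2 * M) := Nat.choose_le_two_pow _ _
  have h4 : (2 * M).factorial ≤ 2 ^ (2 * M) * (M.factorial * M.factorial) := by
    rw [← h1, mul_assoc]
    exact Nat.mul_le_mul_right _ h3
  exact_mod_cast h4

theorem main : S_LOWB := by
  intro J _ _ M f W hW hs hf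
  have h1 := halves (M := M) hW hs
  have h2 := group hW f hf
  have h3 := fact_le M
  have hB : 0 ≤ ∑ w ∈ Bl J M, G W w := sum_nonneg fun w _ => G_nonneg hW w
  set n := Fintype.card J with hn
  set S := ∑ w ∈ Bl J M, G W w with hS
  have h4 : (∑ s, W s) ^ (2 * M) = ((∑ s, W s) ^ M) ^ 2 := by
    rw [← pow_mul, mul_comm]
  rw [h4]
  calc ((2 * M).factorial : ℝ) ^ n * ((∑ s, W s) ^ M) ^ 2
      ≤ (2 ^ (2 * M) * (M.factorial * M.factorial)) ^ n * (((M : ℝ) + 1) ^ n * S) := by
        apply mul_le_mul _ h1 (by positivity) (by positivity)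
        exact pow_le_pow_left₀ (by positivity) h3 n
    _ = (2 ^ (2 * M) * ((M : ℝ) + 1)) ^ n * (((M.factorial : ℝ) * M.factorial) ^ n * S) := by
        rw [mul_pow, mul_pow (2 ^ (2 * M)) ((M : ℝ) + 1)]
        ring
    _ ≤ (2 ^ (2 * M) * (2 * (M : ℝ) + 1)) ^ n * (((M.factorial : ℝ) * M.factorial) ^ n * S) := by
        apply mul_le_mul_of_nonneg_right _ (by positivity)
        apply pow_le_pow_left₀ (by positivity)
        apply mul_le_mul_of_nonneg_left _ (by positivity)
        have : (0 : ℝ) ≤ M := Nat.cast_nonneg _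
        linarith
    _ ≤ _ := mul_le_mul_of_nonneg_left h2 (by positivity)

end Pool.Agent.N545.KL.LOWB
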