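import Pool.Agent.N404.KL.Stm

set_option autoImplicit false

/-!
# Project KL, part REFL: lower bound of the probability of a central interval
-/

namespace Pool.Agent.N545.KL.REFL

open Finset Classical Pool.Agent.N404.KL

/-- The sum over all signs. -/
noncomputable def T {d : ℕ} (α : Fin d → ℝ) (F : ℝ → ℝ) (x : ℝ) : ℝ :=
  ∑ e : Fin d → Bool, F (x + ∑ i, α i * sg (e i))

/-- The indicator function of `[A, B)`. -/
noncomputable def ico (A B : ℝ) (y : ℝ) : ℝ := if A ≤ y ∧ y < B then 1 else 0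

/-- The indicator function of `(A, B]`. -/
noncomputable def ioc (A B : ℝ) (y : ℝ) : ℝ := if A < y ∧ y ≤ B then 1 else 0

lemma ico_nonneg (A B y : ℝ) : 0 ≤ ico A B y := by
  unfold ico
  split_ifs <;> norm_num

lemma ioc_nonneg (A B y : ℝ) : 0 ≤ ioc A B y := by
  unfold ioc
  split_ifs <;> norm_num

lemma T_zero (α : Fin 0 → ℝ) (F : ℝ → ℝ) (x : ℝ) : T α F x = F x := by
  simp [T]

lemma T_succ {d : ℕ} (α : Fin (d + 1) → ℝ) (F : ℝ → ℝ) (x : ℝ) :
    T α F x = T (fun i => α i.succ) F (x + α 0) + T (fun i => α i.succ) F (x - α 0) := by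
  unfold T
  rw [← (Fin.consEquiv (fun _ : Fin (d + 1) => Bool)).sum_comp, Fintype.sum_prod_type,
    Fintype.sum_bool]
  congr 1
  · refine sum_congr rfl fun e _ => ?_
    rw [Fin.sum_univ_succ]
    simp [Fin.consEquiv, sg, add_assoc]
  · refine sum_congr rfl fun e _ => ?_
    rw [Fin.sum_univ_succ]
    simp only [Fin.consEquiv, sg, Equiv.coe_fn_mk, Fin.cons_zero, Fin.cons_succ]
    congr 1
    simp only [Bool.false_eq_true, if_false]
    ring

lemma T_mono {d : ℕ} (α : Fin d → ℝ) {F G : ℝ → ℝ} (x : ℝ) (h : ∀ y, F y ≤ G y) :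
    T α F x ≤ T α G x :=
  sum_le_sum fun _ _ => h _

lemma T_neg {d : ℕ} (α : Fin d → ℝ) (F : ℝ → ℝ) (x : ℝ) :
    T α F x = T α (fun y => F (2 * x - y)) x := by
  unfold T
  let ε : (Fin d → Bool) ≃ (Fin d → Bool) := Equiv.arrowCongr (Equiv.refl _) Equiv.boolNot
  rw [← ε.sum_comp]
  refine sum_congr rfl fun e _ => ?_
  congr 1
  have h1 : ∑ i, α i * sg (ε e i) = - ∑ i, α i * sg (e i) := by
    rw [← sum_neg_distrib]
    refine sum_congr rfl fun i _ => ?_
    have h2 : ε e i = !(e i) := rfl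
    rw [h2]
    cases e i <;> simp [sg]
  rw [h1]
  ring

lemma T_sq {d : ℕ} (α : Fin d → ℝ) (x : ℝ) :
    T α (fun y => y ^ 2) x = 2 ^ d * (x ^ 2 + ∑ i, α i ^ 2) := by
  induction d generalizing x with
  | zero => simp [T_zero]
  | succ d ih =>
    rw [T_succ, ih, ih, Fin.sum_univ_succ]
    ring

/-- The reflection principle. -/
lemma refl {d : ℕ} (α : Fin d → ℝ) (hα : ∀ i, |α i| ≤ 1) (x m A B : ℝ) (hx : x ≤ m + 1)
    (hm : m ≤ A) : T α (ico A B) x ≤ T α (ioc (2 * m - B) (2 * m + 2 - A)) x := by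
  induction d generalizing x with
  | zero =>
    rw [T_zero, T_zero]
    by_cases h : A ≤ x ∧ x < B
    · unfold ico ioc
      rw [if_pos h, if_pos ⟨by linarith [h.1, h.2], by linarith [h.1, h.2]⟩]
    · unfold ico
      rw [if_neg h]
      exact ioc_nonneg _ _ _
  | succ d ih =>
    rcases le_or_gt m x with h | h
    · rw [T_neg]
      refine T_mono _ _ fun y => ?_
      by_cases hy : A ≤ 2 * x - y ∧ 2 * x - y < B
      · unfold ico ioc
        rw [if_pos hy, if_pos ⟨by linarith [hy.1, hy.2], by linarith [hy.1, hy.2]⟩]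
      · unfold ico
        rw [if_neg hy]
        exact ioc_nonneg _ _ _
    · rw [T_succ, T_succ α (ioc _ _)]
      have h0 := abs_le.1 (hα 0)
      exact add_le_add (ih _ (fun i => hα i.succ) _ (by linarith [h0.2]))
        (ih _ (fun i => hα i.succ) _ (by linarith [h0.1]))

lemma T_add {d : ℕ} (α : Fin d → ℝ) (F G : ℝ → ℝ) (x : ℝ) :
    T α (fun y => F y + G y) x = T α F x + T α G x := sum_add_distrib

lemma T_sum {d : ℕ} (α : Fin d → ℝ) (s : Finset ℕ) (F : ℕ → ℝ → ℝ) (x : ℝ) :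
    T α (fun y => ∑ i ∈ s, F i y) x = ∑ i ∈ s, T α (F i) x := sum_comm

lemma T_mul {d : ℕ} (α : Fin d → ℝ) (F : ℝ → ℝ) (x c : ℝ) :
    T α (fun y => c * F y) x = c * T α F x := (mul_sum _ _ _).symm

lemma T_one {d : ℕ} (α : Fin d → ℝ) (x : ℝ) : T α (fun _ => 1) x = 2 ^ d := by
  simp [T]

/-- The statement for `J = Fin d`. -/
lemma main_fin {d : ℕ} (α : Fin d → ℝ) (h σ : ℝ) (hα : ∀ j, |α j| ≤ 1) (h2 : 2 ≤ h) (hσ : h ≤ σ)
    (hs : ∑ j, α j ^ 2 ≤ σ ^ 2) :
    h * 2 ^ d ≤ 8 * σ * T α (fun y => if |y| ≤ h then 1 else 0) 0 := by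
  have hh : 0 < h := by linarith
  have hs0 : 0 < σ := by linarith
  set c0 := T α (fun y => if |y| ≤ h then (1 : ℝ) else 0) 0 with hc0
  have hc0' : 0 ≤ c0 := sum_nonneg fun _ _ => by
    dsimp only
    split_ifs <;> norm_num
  have hmain : ∀ u : ℝ, 0 ≤ u → T α (ico u (u + h)) 0 ≤ c0 := by
    intro u hu
    refine (refl α hα 0 (u / 2) u (u + h) (by linarith) (by linarith)).trans ?_
    refine T_mono _ _ fun y => ?_
    by_cases hy : 2 * (u / 2) - (u + h) < y ∧ y ≤ 2 * (u / 2) + 2 - u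
    · unfold ioc
      rw [if_pos hy, if_pos (abs_le.2 ⟨by linarith [hy.1], by linarith [hy.2]⟩)]
    · unfold ioc
      rw [if_neg hy]
      split_ifs <;> norm_num
  have hmain' : ∀ u : ℝ, 0 ≤ u → T α (fun y => ico u (u + h) (-y)) 0 ≤ c0 := by
    intro u hu
    have h3 := T_neg α (ico u (u + h)) 0
    have h4 : (fun y : ℝ => ico u (u + h) (2 * 0 - y)) = fun y => ico u (u + h) (-y) := by
      funext y
      congr 1
      ring
    rw [h4] at h3
    rw [← h3]
    exact hmain u hu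
  set K := ⌊2 * σ / h⌋₊ with hK
  have hpt : ∀ y : ℝ, (1 : ℝ) ≤ 1 / (4 * σ ^ 2) * y ^ 2 + ∑ i ∈ range (K + 1),
      (ico (i * h) (i * h + h) y + ico (i * h) (i * h + h) (-y)) := by
    intro y
    rcases le_or_gt |y| (2 * σ) with hy | hy
    · have h5 : 0 ≤ 1 / (4 * σ ^ 2) * y ^ 2 := by positivity
      have h6 : ⌊|y| / h⌋₊ ∈ range (K + 1) := by
        rw [mem_range, Nat.lt_succ_iff, hK]
        apply Nat.floor_le_floor
        exact div_le_div_of_nonneg_right hy hh.le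
      have h7 : (⌊|y| / h⌋₊ : ℝ) * h ≤ |y| := by
        rw [← le_div_iff₀ hh]
        exact Nat.floor_le (by positivity)
      have h8 : |y| < (⌊|y| / h⌋₊ : ℝ) * h + h := by
        have := Nat.lt_floor_add_one (|y| / h)
        rw [div_lt_iff₀ hh] at this
        linarith
      have h9 := single_le_sum (f := fun i : ℕ =>
        (ico (i * h) (i * h + h) y + ico (i * h) (i * h + h) (-y)))
        (fun i _ => add_nonneg (ico_nonneg _ _ _) (ico_nonneg _ _ _)) h6
      have h10 : 1 ≤ (ico ((⌊|y| / h⌋₊ : ℝ) * h) ((⌊|y| / h⌋₊ : ℝ) * h + h) y +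
          ico ((⌊|y| / h⌋₊ : ℝ) * h) ((⌊|y| / h⌋₊ : ℝ) * h + h) (-y)) := by
        rcases abs_cases y with ⟨h11, _⟩ | ⟨h11, _⟩
        · have : ico ((⌊|y| / h⌋₊ : ℝ) * h) ((⌊|y| / h⌋₊ : ℝ) * h + h) y = 1 := by
            unfold ico
            rw [if_pos ⟨by rw [← h11]; rw [abs_abs]; exact h7, by
              rw [← h11]; rw [abs_abs]; exact h8⟩]
          rw [this]
          linarith [ico_nonneg ((⌊|y| / h⌋₊ : ℝ) * h) ((⌊|y| / h⌋₊ : ℝ) * h + h) (-y)]
        · have : ico ((⌊|y| / h⌋₊ : ℝ) * h) ((⌊|y| / h⌋₊ : ℝ) * h + h) (-y) = 1 := by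
            unfold ico
            rw [← h11, if_pos ⟨h7, h8⟩]
          rw [this]
          linarith [ico_nonneg ((⌊|y| / h⌋₊ : ℝ) * h) ((⌊|y| / h⌋₊ : ℝ) * h + h) y]
      exact (h10.trans h9).trans (le_add_of_nonneg_left h5)
    · have h5 : 1 ≤ 1 / (4 * σ ^ 2) * y ^ 2 := by
        rw [one_div_mul_eq_div, le_div_iff₀ (by positivity)]
        have : (2 * σ) ^ 2 ≤ |y| ^ 2 := by
          apply pow_le_pow_left₀ (by linarith) hy.le
        rw [sq_abs] at this
        nlinarith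
      exact h5.trans (le_add_of_nonneg_right (sum_nonneg fun i _ =>
        add_nonneg (ico_nonneg _ _ _) (ico_nonneg _ _ _)))
  have h11 := T_mono α 0 hpt
  rw [T_one, T_add, T_mul, T_sq, T_sum] at h11
  have h12 : ∑ i ∈ range (K + 1), T α (fun y => ico (i * h) (i * h + h) y +
      ico (i * h) (i * h + h) (-y)) 0 ≤ ∑ i ∈ range (K + 1), 2 * c0 := by
    refine sum_le_sum fun i _ => ?_
    rw [T_add]
    have h13 := hmain (i * h) (by positivity)
    have h14 := hmain' (i * h) (by positivity)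
    linarith
  rw [sum_const, card_range, nsmul_eq_mul] at h12
  have h15 : ((K + 1 : ℕ) : ℝ) ≤ 3 * σ / h := by
    have h16 : (K : ℝ) ≤ 2 * σ / h := Nat.floor_le (by positivity)
    have h17 : 1 ≤ σ / h := by
      rw [le_div_iff₀ hh]
      linarith
    push_cast
    have h18 : 3 * σ / h = 2 * σ / h + σ / h := by ring
    linarith
  have h19 : 1 / (4 * σ ^ 2) * (2 ^ d * (0 ^ 2 + ∑ i, α i ^ 2)) ≤ 2 ^ d / 4 := by
    have h20 : 1 / (4 * σ ^ 2) * (2 ^ d * (0 ^ 2 + ∑ i, α i ^ 2)) ≤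
        1 / (4 * σ ^ 2) * (2 ^ d * (0 ^ 2 + σ ^ 2)) := by
      apply mul_le_mul_of_nonneg_left _ (by positivity)
      apply mul_le_mul_of_nonneg_left _ (by positivity)
      linarith
    refine h20.trans (le_of_eq ?_)
    field_simp
    ring
  have h21 : ((K + 1 : ℕ) : ℝ) * (2 * c0) ≤ 3 * σ / h * (2 * c0) :=
    mul_le_mul_of_nonneg_right h15 (by linarith)
  have h22 : (3 : ℝ) / 4 * 2 ^ d ≤ 3 * σ / h * (2 * c0) := by linarith
  have h23 : h * (3 / 4 * 2 ^ d) ≤ h * (3 * σ / h * (2 * c0)) := mul_le_mul_of_nonneg_left h22 hh.le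
  have h24 : h * (3 * σ / h * (2 * c0)) = 6 * σ * c0 := by
    field_simp
    ring
  rw [h24] at h23
  linarith

theorem main : S_REFL := by
  intro J _ _ α h σ hα h2 hσ hs
  let ε : J ≃ Fin (Fintype.card J) := Fintype.equivFin J
  have h1 := main_fin (fun i => α (ε.symm i)) h σ (fun i => hα _) h2 hσ (by
    rw [ε.symm.sum_comp (fun j => α j ^ 2)]
    exact hs)
  have h3 : T (fun i => α (ε.symm i)) (fun y => if |y| ≤ h then (1 : ℝ) else 0) 0 =
      ((univ.filter fun e : J → Bool => |∑ j, α j * sg (e j)| ≤ h).card : ℝ) := by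
    rw [card_filter, Nat.cast_sum]
    unfold T
    let ι : (J → Bool) ≃ (Fin (Fintype.card J) → Bool) := Equiv.arrowCongr ε (Equiv.refl _)
    rw [← ι.sum_comp]
    refine sum_congr rfl fun e _ => ?_
    have h4 : (0 : ℝ) + ∑ i, α (ε.symm i) * sg (ι e i) = ∑ j, α j * sg (e j) := by
      rw [zero_add, ← ε.symm.sum_comp (fun j => α j * sg (e j))]
      rfl
    rw [h4]
    dsimp only
    by_cases h5 : |∑ j, α j * sg (e j)| ≤ h
    · rw [if_pos h5, if_pos h5, Nat.cast_one]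
    · rw [if_neg h5, if_neg h5, Nat.cast_zero]
  rw [h3] at h1
  exact h1

end Pool.Agent.N545.KL.REFL
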