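import Mathlib
import Pool.Agent.N585.LB.Defs

/-!
# The fractal order is in the class (LB/6)
-/

namespace Pool.Agent.N545.LB6

open Cardinal Set Pool.Agent.N585.LB

universe u

variable {T : Type u} [LinearOrder T]

lemma lf_lt_mid (t : T) : lf t < mid T := Sum.Lex.inl_lt_inr _ _

lemma mid_lt_rt (t : T) : mid T < rt t := Sum.Lex.inr_lt_inr_iff.2 (WithBot.bot_lt_coe t)

lemma rt_inj : Function.Injective (rt : T → Lam T) := by
  intro s t h
  have h1 : (Sum.inr (s : WithBot T) : T ⊕ WithBot T) = Sum.inr (t : WithBot T) := toLex.injective h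
  exact WithBot.coe_injective (Sum.inr_injective h1)

lemma lt_iff (x y : Frac T) : x < y ↔
    ∃ i, (∀ j, j < i → ofLex x.1 j = ofLex y.1 j) ∧ ofLex x.1 i < ofLex y.1 i := Iff.rfl

/-- change one letter -/
noncomputable def ch (x : Frac T) (m : ℕ) (a : Lam T) : Frac T :=
  ⟨toLex (Function.update (ofLex x.1) m a), by
    obtain ⟨n, hn⟩ := x.2
    refine ⟨max n (m + 1), fun k hk => ?_⟩
    have h1 : k ≠ m := by
      have := (le_max_right n (m + 1)).trans hk
      omega
    change Function.update (ofLex x.1) m a k = mid T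
    rw [Function.update_of_ne h1]
    exact hn k ((le_max_left _ _).trans hk)⟩

lemma ch_same (x : Frac T) (m : ℕ) (a : Lam T) : ofLex (ch x m a).1 m = a := by
  change Function.update (ofLex x.1) m a m = a
  exact Function.update_self _ _ _

lemma ch_ne (x : Frac T) (m : ℕ) (a : Lam T) {k : ℕ} (h : k ≠ m) :
    ofLex (ch x m a).1 k = ofLex x.1 k := by
  change Function.update (ofLex x.1) m a k = ofLex x.1 k
  exact Function.update_of_ne h _ _

lemma lt_ch (x : Frac T) (m : ℕ) (a : Lam T) (h : ofLex x.1 m < a) : x < ch x m a := by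
  rw [lt_iff]
  refine ⟨m, fun j hj => ?_, ?_⟩
  · rw [ch_ne x m a hj.ne]
  · rw [ch_same]; exact h

lemma ch_lt (x : Frac T) (m : ℕ) (a : Lam T) (h : a < ofLex x.1 m) : ch x m a < x := by
  rw [lt_iff]
  refine ⟨m, fun j hj => ?_, ?_⟩
  · rw [ch_ne x m a hj.ne]
  · rw [ch_same]; exact h

lemma ch_lt_of (x y : Frac T) (N m : ℕ) (a : Lam T) (h1 : ∀ j, j < N → ofLex x.1 j = ofLex y.1 j)
    (h2 : ofLex x.1 N < ofLex y.1 N) (hm : N < m) : ch x m a < y := by
  rw [lt_iff]
  refine ⟨N, fun j hj => ?_, ?_⟩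
  · rw [ch_ne x m a (by omega)]; exact h1 j hj
  · rw [ch_ne x m a (by omega)]; exact h2

lemma lt_ch_of (x y : Frac T) (N m : ℕ) (a : Lam T) (h1 : ∀ j, j < N → ofLex x.1 j = ofLex y.1 j)
    (h2 : ofLex x.1 N < ofLex y.1 N) (hm : N < m) : x < ch y m a := by
  rw [lt_iff]
  refine ⟨N, fun j hj => ?_, ?_⟩
  · rw [ch_ne y m a (by omega)]; exact h1 j hj
  · rw [ch_ne y m a (by omega)]; exact h2

lemma mk_Lam (hT : #T = ℵ₁) : #(Lam T) = ℵ₁ := by
  have h1 : #(Lam T) = #(T ⊕ WithBot T) := mk_congr ofLex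
  have h2 : #(WithBot T) = #T + 1 := mk_option
  rw [h1, mk_sum, lift_id, lift_id, h2, hT]
  have h3 : (ℵ₁ : Cardinal.{u}) + 1 = ℵ₁ := add_one_eq (aleph0_le_aleph 1)
  rw [h3, add_eq_self (aleph0_le_aleph 1)]

lemma mk_Frac (hT : #T = ℵ₁) : #(Frac T) ≤ ℵ₁ := by
  classical
  have hinj : Function.Injective
      (fun x : Frac T => List.ofFn (fun i : Fin (Classical.choose x.2) => ofLex x.1 (i : ℕ))) := by
    intro x y h
    have h' : List.ofFn (fun i : Fin (Classical.choose x.2) => ofLex x.1 (i : ℕ)) =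
      List.ofFn (fun i : Fin (Classical.choose y.2) => ofLex y.1 (i : ℕ)) := h
    have hx := Classical.choose_spec x.2
    have hy := Classical.choose_spec y.2
    have hlen : Classical.choose x.2 = Classical.choose y.2 := by
      have := congrArg List.length h'
      rwa [List.length_ofFn, List.length_ofFn] at this
    apply Subtype.ext
    apply ofLex.injective
    funext k
    by_cases hk : k < Classical.choose x.2
    · have hk' : k < Classical.choose y.2 := hlen ▸ hk
      have h1 : (List.ofFn (fun i : Fin (Classical.choose x.2) => ofLex x.1 (i : ℕ)))[k]? =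
        (List.ofFn (fun i : Fin (Classical.choose y.2) => ofLex y.1 (i : ℕ)))[k]? := by rw [h']
      rw [List.getElem?_ofFn, List.getElem?_ofFn, dif_pos hk, dif_pos hk'] at h1
      exact Option.some_injective _ h1
    · push Not at hk
      rw [hx k hk, hy k (hlen ▸ hk)]
  have h1 := mk_le_of_injective hinj
  refine h1.trans ((mk_list_le_max (Lam T)).trans ?_)
  rw [mk_Lam hT]
  exact max_le (aleph0_le_aleph 1) le_rfl

theorem stmFracC : StmFracC.{u} := by
  intro T _ hT
  have hne : Nonempty T := by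
    rw [← mk_ne_zero_iff, hT]
    exact (aleph_pos 1).ne'
  obtain ⟨t0⟩ := hne
  constructor
  · refine ⟨⟨toLex fun _ => mid T, 0, fun m _ => rfl⟩, ch ⟨toLex fun _ => mid T, 0, fun m _ => rfl⟩ 0 (rt t0), ?_⟩
    exact lt_ch _ _ _ (mid_lt_rt t0)
  · intro a b hab
    apply le_antisymm ((mk_set_le _).trans (mk_Frac hT))
    obtain ⟨N, hN1, hN2⟩ := (lt_iff a b).mp hab
    obtain ⟨n, hn⟩ := a.2
    have hf : ∀ t : T, ch a (max n (N + 1)) (rt t) ∈ Ioo a b := by
      intro t
      refine ⟨lt_ch _ _ _ ?_, ch_lt_of a b N _ _ hN1 hN2 ?_⟩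
      · rw [hn _ (le_max_left _ _)]; exact mid_lt_rt t
      · have := le_max_right n (N + 1)
        omega
    rw [← hT]
    refine mk_le_of_injective (f := fun t : T => (⟨ch a (max n (N + 1)) (rt t), hf t⟩ : ↥(Ioo a b))) ?_
    intro s t hst
    have h1 : ch a (max n (N + 1)) (rt s) = ch a (max n (N + 1)) (rt t) := congrArg Subtype.val hst
    apply rt_inj
    rw [← ch_same a (max n (N + 1)) (rt s), ← ch_same a (max n (N + 1)) (rt t), h1]
  · intro x _
    obtain ⟨n, hn⟩ := x.2
    refine ⟨fun k => ch x (n + k) (lf t0), strictMono_nat_of_lt_succ fun k => ?_, ?_, ?_⟩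
    · rw [lt_iff]
      refine ⟨n + k, fun j hj => ?_, ?_⟩
      · rw [ch_ne x (n + k) _ (by omega), ch_ne x (n + (k + 1)) _ (by omega)]
      · rw [ch_same, ch_ne x (n + (k + 1)) _ (by omega), hn _ (by omega)]
        exact lf_lt_mid t0
    · rintro _ ⟨k, rfl⟩
      refine (ch_lt x (n + k) _ ?_).le
      rw [hn _ (by omega)]
      exact lf_lt_mid t0
    · intro y hy
      by_contra hlt
      push Not at hlt
      obtain ⟨N, hN1, hN2⟩ := (lt_iff y x).mp hlt
      have h1 := hy ⟨N + 1, rfl⟩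
      exact absurd (lt_ch_of y x N (n + (N + 1)) (lf t0) hN1 hN2 (by omega)) (not_lt.mpr h1)
  · intro x _
    obtain ⟨n, hn⟩ := x.2
    refine ⟨fun k => ch x (n + k) (rt t0), strictAnti_nat_of_succ_lt fun k => ?_, ?_, ?_⟩
    · rw [lt_iff]
      refine ⟨n + k, fun j hj => ?_, ?_⟩
      · rw [ch_ne x (n + k) _ (by omega), ch_ne x (n + (k + 1)) _ (by omega)]
      · rw [ch_same, ch_ne x (n + (k + 1)) _ (by omega), hn _ (by omega)]
        exact mid_lt_rt t0
    · rintro _ ⟨k, rfl⟩
      refine (lt_ch x (n + k) _ ?_).le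
      rw [hn _ (by omega)]
      exact mid_lt_rt t0
    · intro y hy
      by_contra hlt
      push Not at hlt
      obtain ⟨N, hN1, hN2⟩ := (lt_iff x y).mp hlt
      have h1 := hy ⟨N + 1, rfl⟩
      exact absurd (ch_lt_of x y N (n + (N + 1)) (rt t0) hN1 hN2 (by omega)) (not_lt.mpr h1)

end Pool.Agent.N545.LB6
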