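import Mathlib
import Pool.Agent.N604.MW.Stm2
import Pool.Agent.H373R2.NB.Weyl
set_option autoImplicit false

/-!
# Project PW, piece RECUR: strong recurrence of `α n ^ k` gives a rational approximation to `α`
-/

namespace Pool.Agent.N545.PWR

open Finset
open Pool.Agent.Helper602.MK (ee)
open Pool.Agent.Helper602.MK.N_J5b (ee_add norm_ee ee_int ee_conj ee_zero ee_add_int ee_eq)
open Pool.Agent.H373R2.NB (Ph IW IW_all Ph_poly)
open Pool.Agent.N604.MW (S_RECUR)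

lemma re_ee (y : ℝ) : (ee y).re = Real.cos (2 * Real.pi * y) := by
  rw [ee_eq, Complex.exp_ofReal_mul_I_re]

lemma re_ge (y : ℝ) (h : |y| ≤ 1 / 8) : 1 / 2 ≤ (ee y).re := by
  rw [re_ee]
  have h1 := Real.one_sub_sq_div_two_le_cos (x := 2 * Real.pi * y)
  have h2 : (2 * Real.pi * y) ^ 2 ≤ 1 := by
    have h3 : |2 * Real.pi * y| ≤ 1 := by
      rw [abs_mul, abs_of_pos (by positivity : 0 < 2 * Real.pi)]
      calc 2 * Real.pi * |y| ≤ 2 * Real.pi * (1 / 8) := by gcongr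
        _ ≤ 1 := by nlinarith [Real.pi_le_four]
    rw [← sq_abs]
    exact pow_le_one₀ (abs_nonneg _) h3
  linarith

/-- lower bound for the sum over `h` -/
lemma sum_h (x ε : ℝ) (H : ℕ) (hε : 0 ≤ ε) (hH : H * ε ≤ 1 / 8) (a : ℤ) (ha : |x - a| ≤ ε) :
    (H : ℝ) / 2 ≤ ‖∑ h ∈ range H, ee (h * x)‖ := by
  refine le_trans ?_ (Complex.re_le_norm _)
  rw [Complex.re_sum]
  have h1 : ∀ h ∈ range H, (1 : ℝ) / 2 ≤ (ee (h * x)).re := by
    intro h hh
    rw [mem_range] at hh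
    have e1 : (h : ℝ) * x = h * (x - a) + ((h * a : ℤ) : ℝ) := by push_cast; ring
    rw [e1, ee_add_int]
    apply re_ge
    rw [abs_mul, Nat.abs_cast]
    calc (h : ℝ) * |x - a| ≤ H * ε := by
          apply mul_le_mul _ ha (abs_nonneg _) (by positivity)
          exact_mod_cast hh.le
      _ ≤ 1 / 8 := hH
  calc (H : ℝ) / 2 = ∑ _h ∈ range H, (1 : ℝ) / 2 := by rw [sum_const, card_range, nsmul_eq_mul]; ring
    _ ≤ _ := Finset.sum_le_sum h1

lemma sq_expand (x : ℝ) (H : ℕ) :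
    ((‖∑ h ∈ range H, ee (h * x)‖ ^ 2 : ℝ) : ℂ) =
      ∑ h ∈ range H, ∑ h' ∈ range H, ee (((h : ℝ) - h') * x) := by
  have h0 := Complex.mul_conj (∑ h ∈ range H, ee (h * x))
  rw [Complex.normSq_eq_norm_sq] at h0
  rw [← h0, map_sum, sum_mul_sum]
  refine sum_congr rfl fun h _ => sum_congr rfl fun h' _ => ?_
  rw [ee_conj, ← ee_add]
  congr 1
  ring

/-- some nonzero multiple has a large exponential sum -/
lemma step1 (x : ℕ → ℝ) (N : ℕ) (S : Finset ℕ) (u ε : ℝ) (hu : 1 ≤ u) (hε : 0 ≤ ε)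
    (hN : 1 ≤ N) (hue : 136 * u * ε ≤ 1) (hS : ∀ n ∈ S, N < n ∧ n ≤ 2 * N) (hc : (N : ℝ) ≤ u * S.card)
    (hx : ∀ n ∈ S, ∃ a : ℤ, |x n - a| ≤ ε) :
    ∃ l : ℕ, 1 ≤ l ∧ (l : ℝ) ≤ 17 * u ∧ (N : ℝ) ≤ 8 * u * ‖∑ n ∈ Ioc N (2 * N), ee (l * x n)‖ := by
  set H : ℕ := ⌈16 * u⌉₊ with hH
  have hH1 : 16 * u ≤ H := Nat.le_ceil _
  have hH2 : (H : ℝ) ≤ 17 * u := by
    have := Nat.ceil_lt_add_one (show 0 ≤ 16 * u by linarith)
    linarith
  have hHε : H * ε ≤ 1 / 8 := by nlinarith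
  have hN0 : (1 : ℝ) ≤ N := by exact_mod_cast hN
  by_contra hcon
  push Not at hcon
  -- bound for every pair
  have hT : ∀ h ∈ range H, ∀ h' ∈ range H, ‖∑ n ∈ Ioc N (2 * N), ee (((h : ℝ) - h') * x n)‖ ≤
      (if h = h' then (N : ℝ) else 0) + N / (8 * u) := by
    intro h hh h' hh'
    rw [mem_range] at hh hh'
    have hp : 0 ≤ (N : ℝ) / (8 * u) := by positivity
    have key : ∀ l : ℕ, 1 ≤ l → l < H → ‖∑ n ∈ Ioc N (2 * N), ee (l * x n)‖ ≤ N / (8 * u) := by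
      intro l hl1 hl2
      have := hcon l hl1 ((by exact_mod_cast hl2.le : (l : ℝ) ≤ H).trans hH2)
      rw [le_div_iff₀ (by linarith)]
      linarith
    rcases lt_trichotomy h h' with hlt | heq | hgt
    · rw [if_neg hlt.ne, zero_add]
      have h1 := key (h' - h) (by omega) (by omega)
      have e1 : (starRingEnd ℂ) (∑ n ∈ Ioc N (2 * N), ee (((h' - h : ℕ) : ℝ) * x n)) =
          ∑ n ∈ Ioc N (2 * N), ee (((h : ℝ) - h') * x n) := by
        rw [map_sum]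
        refine sum_congr rfl fun n _ => ?_
        rw [ee_conj, Nat.cast_sub hlt.le]
        congr 1
        ring
      rw [← e1, Complex.norm_conj]
      exact h1
    · rw [if_pos heq]
      have : ‖∑ n ∈ Ioc N (2 * N), ee (((h : ℝ) - h') * x n)‖ ≤ N := by
        refine (norm_sum_le _ _).trans ?_
        simp only [norm_ee, sum_const, Nat.card_Ioc, nsmul_eq_mul, mul_one]
        rw [show 2 * N - N = N by omega]
      linarith
    · rw [if_neg hgt.ne', zero_add]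
      have h1 := key (h - h') (by omega) (by omega)
      rw [Nat.cast_sub hgt.le] at h1
      exact h1
  -- upper bound
  have hup : ∑ n ∈ Ioc N (2 * N), ‖∑ h ∈ range H, ee (h * x n)‖ ^ 2 ≤ H * N + H ^ 2 * (N / (8 * u)) := by
    have e1 : ((∑ n ∈ Ioc N (2 * N), ‖∑ h ∈ range H, ee (h * x n)‖ ^ 2 : ℝ) : ℂ) =
        ∑ h ∈ range H, ∑ h' ∈ range H, ∑ n ∈ Ioc N (2 * N), ee (((h : ℝ) - h') * x n) := by
      rw [Complex.ofReal_sum, sum_congr rfl fun n _ => sq_expand (x n) H, sum_comm]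
      refine sum_congr rfl fun h _ => ?_
      rw [sum_comm]
    have e2 : ∑ n ∈ Ioc N (2 * N), ‖∑ h ∈ range H, ee (h * x n)‖ ^ 2 =
        ‖((∑ n ∈ Ioc N (2 * N), ‖∑ h ∈ range H, ee (h * x n)‖ ^ 2 : ℝ) : ℂ)‖ := by
      rw [Complex.norm_real, Real.norm_of_nonneg (Finset.sum_nonneg fun _ _ => by positivity)]
    rw [e2, e1]
    calc ‖∑ h ∈ range H, ∑ h' ∈ range H, ∑ n ∈ Ioc N (2 * N), ee (((h : ℝ) - h') * x n)‖
        ≤ ∑ h ∈ range H, ∑ h' ∈ range H, ((if h = h' then (N : ℝ) else 0) + N / (8 * u)) := by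
          refine (norm_sum_le _ _).trans (Finset.sum_le_sum fun h hh => ?_)
          exact (norm_sum_le _ _).trans (Finset.sum_le_sum fun h' hh' => hT h hh h' hh')
      _ = H * N + H ^ 2 * (N / (8 * u)) := by
          have : ∀ h ∈ range H, ∑ h' ∈ range H, ((if h = h' then (N : ℝ) else 0) + N / (8 * u)) =
              N + H * (N / (8 * u)) := by
            intro h hh
            rw [sum_add_distrib, sum_ite_eq, if_pos hh, sum_const, card_range, nsmul_eq_mul]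
          rw [sum_congr rfl this, sum_const, card_range, nsmul_eq_mul]
          ring
  -- lower bound
  have hlow : (S.card : ℝ) * (H / 2) ^ 2 ≤ ∑ n ∈ Ioc N (2 * N), ‖∑ h ∈ range H, ee (h * x n)‖ ^ 2 := by
    have hsub : S ⊆ Ioc N (2 * N) := fun n hn => by rw [mem_Ioc]; exact hS n hn
    calc (S.card : ℝ) * (H / 2) ^ 2 = ∑ _n ∈ S, ((H : ℝ) / 2) ^ 2 := by
          rw [sum_const, nsmul_eq_mul]
      _ ≤ ∑ n ∈ S, ‖∑ h ∈ range H, ee (h * x n)‖ ^ 2 := by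
          refine Finset.sum_le_sum fun n hn => ?_
          obtain ⟨a, ha⟩ := hx n hn
          exact pow_le_pow_left₀ (by positivity) (sum_h (x n) ε H hε hHε a ha) 2
      _ ≤ _ := Finset.sum_le_sum_of_subset_of_nonneg hsub fun _ _ _ => by positivity
  have h5 := hlow.trans hup
  -- contradiction
  have hu0 : 0 < u := by linarith
  have hH0 : (0 : ℝ) < H := by linarith
  have h6 : (N : ℝ) * (H / 2) ^ 2 ≤ u * (H * N + H ^ 2 * (N / (8 * u))) := by
    calc (N : ℝ) * (H / 2) ^ 2 ≤ (u * S.card) * (H / 2) ^ 2 := by gcongr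
      _ = u * (S.card * (H / 2) ^ 2) := by ring
      _ ≤ _ := mul_le_mul_of_nonneg_left h5 hu0.le
  have h7 : u * (H * N + H ^ 2 * (N / (8 * u))) = u * H * N + H ^ 2 * N / 8 := by
    field_simp
  rw [h7] at h6
  have h8 : (0 : ℝ) < H * N := by positivity
  nlinarith

lemma ipow (α : ℝ) (k N l : ℕ) :
    Ph k ((l * α) * (k.factorial : ℝ)) (fun n => l * (α * ((N + 1 + n : ℕ) : ℝ) ^ k)) := by
  have h1 := Ph_poly k ((Polynomial.X + Polynomial.C ((N + 1 : ℕ) : ℤ)) ^ k) (by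
    refine (Polynomial.natDegree_pow_le).trans ?_
    rw [Polynomial.natDegree_X_add_C, mul_one]) (l * α)
  have h2 : ((Polynomial.X + Polynomial.C ((N + 1 : ℕ) : ℤ)) ^ k).coeff k = 1 := by
    have h3 := (Polynomial.monic_X_add_C ((N + 1 : ℕ) : ℤ)).pow k
    have h4 : ((Polynomial.X + Polynomial.C ((N + 1 : ℕ) : ℤ)) ^ k).natDegree = k := by
      rw [Polynomial.natDegree_pow, Polynomial.natDegree_X_add_C, mul_one]
    have h5 := h3.coeff_natDegree
    rwa [h4] at h5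
  rw [h2] at h1
  simp only [Polynomial.eval_pow, Polynomial.eval_add, Polynomial.eval_X, Polynomial.eval_C] at h1
  convert h1 using 1
  · push_cast; ring
  · ext n
    push_cast
    ring

/-- from an approximation of quality `K / N ^ k` to the quality `ε / N ^ k` -/
lemma step2 (k : ℕ) (hk : 1 ≤ k) (α γ ε K u : ℝ) (N q M : ℕ) (S : Finset ℕ) (a : ℤ) (hu : 1 ≤ u)
    (hε1 : ε ≤ 1) (hN : 1 ≤ N) (hq : 1 ≤ q) (hK : 0 ≤ K)
    (hη : |q * α - a| ≤ K / (N : ℝ) ^ k) (hM : K * 2 ^ k + 2 ≤ M)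
    (hS : ∀ n ∈ S, N < n ∧ n ≤ 2 * N) (hc : (N : ℝ) ≤ u * S.card)
    (hD : 2 * u * q * (2 * M + 1) ≤ N) (hx : ∀ n ∈ S, ∃ b : ℤ, |α * (n : ℝ) ^ k - γ - b| ≤ ε) :
    |q * α - a| ≤ 2 * ε * q * (2 * u * q * (2 * M + 1)) / (N : ℝ) ^ k := by
  classical
  choose! b hb using hx
  have hN0 : (0 : ℝ) < N := by exact_mod_cast hN
  have hq0 : (0 : ℝ) < q := by exact_mod_cast hq
  have hq1 : (1 : ℝ) ≤ q := by exact_mod_cast hq
  have hM0 : (0 : ℝ) ≤ M := Nat.cast_nonneg M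
  set η : ℝ := q * α - a with hηd
  set g : ℕ → ℝ := fun r => γ - a * (r : ℝ) ^ k / q with hg
  set z : ℕ → ℤ := fun n => ((n : ℤ) ^ k - ((n % q : ℕ) : ℤ) ^ k) / q with hz
  have hzq : ∀ n : ℕ, (q : ℤ) * z n = (n : ℤ) ^ k - ((n % q : ℕ) : ℤ) ^ k := by
    intro n
    simp only [hz]
    apply Int.mul_ediv_cancel'
    have h1 : (q : ℤ) ∣ (n : ℤ) - ((n % q : ℕ) : ℤ) := by
      refine ⟨((n / q : ℕ) : ℤ), ?_⟩
      have := Nat.div_add_mod n q
      have h2 : (n : ℤ) = q * (n / q : ℕ) + (n % q : ℕ) := by exact_mod_cast this.symm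
      linarith
    exact h1.trans (sub_dvd_pow_sub_pow _ _ k)
  set w : ℕ → ℤ := fun n => b n - a * z n + ⌊g (n % q)⌋ with hw
  have hmain : ∀ n ∈ S, |η * (n : ℝ) ^ k / q - Int.fract (g (n % q)) - w n| ≤ ε := by
    intro n hn
    have h1 := hb n hn
    have h2 : (q : ℝ) * (z n : ℝ) = (n : ℝ) ^ k - ((n % q : ℕ) : ℝ) ^ k := by exact_mod_cast hzq n
    have h3 : α * (n : ℝ) ^ k - γ - b n = η * (n : ℝ) ^ k / q - Int.fract (g (n % q)) - w n := by
      have h4 : (z n : ℝ) = ((n : ℝ) ^ k - ((n % q : ℕ) : ℝ) ^ k) / q := by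
        rw [← h2]; field_simp
      rw [← Int.self_sub_floor]
      simp only [hw]
      push_cast
      rw [h4]
      simp only [hg, hηd]
      field_simp
      ring
    rw [← h3]
    exact h1
  have hsmall : ∀ n ∈ S, |η * (n : ℝ) ^ k / q| ≤ K * 2 ^ k := by
    intro n hn
    have hn2 : (n : ℝ) ≤ 2 * N := by exact_mod_cast (hS n hn).2
    rw [abs_div, abs_mul, abs_of_pos hq0, abs_of_nonneg (by positivity : (0 : ℝ) ≤ (n : ℝ) ^ k),
      div_le_iff₀ hq0]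
    calc |η| * (n : ℝ) ^ k ≤ (K / (N : ℝ) ^ k) * (2 * N) ^ k := by gcongr
      _ = K * 2 ^ k := by rw [mul_pow]; field_simp
      _ ≤ K * 2 ^ k * q := le_mul_of_one_le_right (by positivity) hq1
  have hwM : ∀ n ∈ S, w n ∈ Icc (-(M : ℤ)) M := by
    intro n hn
    have h1 := hmain n hn
    have h2 := hsmall n hn
    have h3 := Int.fract_nonneg (g (n % q))
    have h4 := Int.fract_lt_one (g (n % q))
    rw [abs_le] at h1 h2
    rw [mem_Icc]
    have h5 : (w n : ℝ) ≤ M := by linarith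
    have h6 : -(M : ℝ) ≤ w n := by linarith
    exact ⟨by exact_mod_cast h6, by exact_mod_cast h5⟩
  set f : ℕ → ℕ × ℤ := fun n => (n % q, w n) with hf
  have hmap : ∀ n ∈ S, f n ∈ range q ×ˢ Icc (-(M : ℤ)) M := by
    intro n hn
    rw [mem_product]
    exact ⟨mem_range.mpr (Nat.mod_lt _ hq), hwM n hn⟩
  have hcard : ((range q ×ˢ Icc (-(M : ℤ)) M).card : ℝ) = q * (2 * M + 1) := by
    rw [card_product, card_range, Int.card_Icc]
    have : ((M : ℤ) + 1 - -(M : ℤ)).toNat = 2 * M + 1 := by omega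
    rw [this]
    push_cast
    ring
  have hP0 : (0 : ℝ) < q * (2 * M + 1) := by positivity
  obtain ⟨y, -, hy⟩ := Finset.exists_le_card_fiber_of_nsmul_le_card_of_maps_to (M := ℝ)
    (b := (S.card : ℝ) / (q * (2 * M + 1))) hmap
    ⟨(0, 0), by rw [mem_product, mem_range, mem_Icc]; exact ⟨hq, by omega, by omega⟩⟩
    (by rw [nsmul_eq_mul, hcard, mul_div_cancel₀ _ hP0.ne'])
  set T := S.filter fun n => f n = y with hT
  have hu0 : 0 < u := by linarith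
  set D : ℝ := 2 * u * q * (2 * M + 1) with hDd
  have hD0 : 0 < D := by positivity
  have hTc : 2 * (N / D) ≤ T.card := by
    refine le_trans ?_ hy
    have e1 : 2 * ((N : ℝ) / D) = (N / u) / (q * (2 * M + 1)) := by
      rw [hDd]; field_simp
    rw [e1]
    apply div_le_div_of_nonneg_right _ hP0.le
    rw [div_le_iff₀ hu0, mul_comm]
    exact hc
  have hND : 1 ≤ (N : ℝ) / D := by rw [le_div_iff₀ hD0, one_mul]; exact hD
  have hTne : T.Nonempty := by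
    rw [← card_pos]
    have : (0 : ℝ) < T.card := by linarith
    exact_mod_cast this
  obtain ⟨n1, hn1, hmin⟩ : ∃ n1 ∈ T, ∀ n ∈ T, n1 ≤ n := ⟨T.min' hTne, T.min'_mem hTne, fun n hn => T.min'_le n hn⟩
  obtain ⟨n2, hn2, hmax⟩ : ∃ n2 ∈ T, ∀ n ∈ T, n ≤ n2 := ⟨T.max' hTne, T.max'_mem hTne, fun n hn => T.le_max' n hn⟩
  have h12 : n1 ≤ n2 := hmin n2 hn2
  have hdiff : (N : ℝ) / D ≤ n2 - n1 := by
    have hsub : T ⊆ Icc n1 n2 := fun n hn => mem_Icc.mpr ⟨hmin n hn, hmax n hn⟩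
    have h1 := card_le_card hsub
    rw [Nat.card_Icc] at h1
    have h2 : (T.card : ℝ) ≤ ((n2 + 1 - n1 : ℕ) : ℝ) := by exact_mod_cast h1
    rw [Nat.cast_sub (by omega)] at h2
    push_cast at h2
    linarith
  rw [hT, mem_filter] at hn1 hn2
  have hff : f n1 = f n2 := hn1.2.trans hn2.2.symm
  simp only [hf, Prod.mk.injEq] at hff
  have hg1 := hmain n1 hn1.1
  have hg2 := hmain n2 hn2.1
  rw [hff.1, hff.2] at hg1
  have hd : η * ((n2 : ℝ) ^ k - (n1 : ℝ) ^ k) / q ≤ 2 * ε ∧ -(2 * ε) ≤ η * ((n2 : ℝ) ^ k - (n1 : ℝ) ^ k) / q := by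
    rw [abs_le] at hg1 hg2
    have e1 : η * ((n2 : ℝ) ^ k - (n1 : ℝ) ^ k) / q = η * (n2 : ℝ) ^ k / q - η * (n1 : ℝ) ^ k / q := by ring
    rw [e1]
    constructor <;> linarith
  have hn12 : (n1 : ℝ) ≤ n2 := by exact_mod_cast h12
  have hn1N : (N : ℝ) ≤ n1 := by exact_mod_cast (hS n1 hn1.1).1.le
  have hpow : (N : ℝ) ^ k / D ≤ (n2 : ℝ) ^ k - (n1 : ℝ) ^ k := by
    obtain ⟨k', rfl⟩ : ∃ k', k = k' + 1 := ⟨k - 1, by omega⟩
    have h1 : (n1 : ℝ) ^ k' ≤ (n2 : ℝ) ^ k' := pow_le_pow_left₀ (by positivity) hn12 k'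
    have h2 : (N : ℝ) ^ k' ≤ (n1 : ℝ) ^ k' := pow_le_pow_left₀ (by positivity) hn1N k'
    calc (N : ℝ) ^ (k' + 1) / D = (N / D) * (N : ℝ) ^ k' := by rw [pow_succ]; ring
      _ ≤ (n2 - n1) * (n1 : ℝ) ^ k' := by
          apply mul_le_mul hdiff h2 (by positivity) (by linarith)
      _ = n2 * (n1 : ℝ) ^ k' - n1 ^ (k' + 1) := by rw [pow_succ]; ring
      _ ≤ n2 * (n2 : ℝ) ^ k' - n1 ^ (k' + 1) := by
          have := mul_le_mul_of_nonneg_left h1 (Nat.cast_nonneg (α := ℝ) n2)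
          linarith
      _ = _ := by rw [pow_succ]; ring
  have hpow0 : 0 ≤ (n2 : ℝ) ^ k - (n1 : ℝ) ^ k := le_trans (by positivity) hpow
  have habs : |η| * ((n2 : ℝ) ^ k - (n1 : ℝ) ^ k) ≤ 2 * ε * q := by
    have h1 : |η * ((n2 : ℝ) ^ k - (n1 : ℝ) ^ k) / q| ≤ 2 * ε := abs_le.mpr ⟨hd.2, hd.1⟩
    rw [abs_div, abs_mul, abs_of_nonneg hpow0, abs_of_pos hq0, div_le_iff₀ hq0] at h1
    exact h1
  have hfin : |η| * ((N : ℝ) ^ k / D) ≤ 2 * ε * q :=
    (mul_le_mul_of_nonneg_left hpow (abs_nonneg η)).trans habs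
  rw [le_div_iff₀ (by positivity)]
  rw [← mul_div_assoc, div_le_iff₀ hD0] at hfin
  exact hfin

theorem recur : S_RECUR := by
  intro k hk
  obtain ⟨c, m, hc, hI⟩ := IW_all k hk
  set c1 : ℕ := 17 * c * 8 ^ m * k.factorial with hc1
  set c2 : ℕ := 2 * c * 8 ^ m * 2 ^ k + 7 with hc2
  have hc1p : 1 ≤ c1 := Nat.succ_le_of_lt (by
    have := Nat.factorial_pos k
    positivity)
  have hc2p : 1 ≤ c2 := by omega
  refine ⟨4 * c1 ^ 2 * c2 + 136, 3 * m + 3, ?_⟩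
  intro α γ ε u N S hu hε hCε hCN hS hcard hx
  have hu0 : 0 < u := by linarith
  have hc1r : (1 : ℝ) ≤ c1 := by exact_mod_cast hc1p
  have hc2r : (1 : ℝ) ≤ c2 := by exact_mod_cast hc2p
  set C : ℝ := ((4 * c1 ^ 2 * c2 + 136 : ℕ) : ℝ) with hC
  have hCe : C = 4 * (c1 : ℝ) ^ 2 * c2 + 136 := by rw [hC]; push_cast; ring
  set U : ℝ := u ^ (3 * m + 3) with hU
  have hU1 : 1 ≤ U := one_le_pow₀ hu
  have hup : ∀ j : ℕ, j ≤ 3 * m + 3 → u ^ j ≤ U := fun j hj => pow_le_pow_right₀ hu hj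
  have hCU : 136 ≤ C * U := by
    have : (136 : ℝ) ≤ C := by rw [hCe]; nlinarith [sq_nonneg (c1 : ℝ)]
    nlinarith
  have hN1 : (1 : ℝ) ≤ N := by linarith
  have hN : 1 ≤ N := by exact_mod_cast hN1
  have hue : 136 * u * ε ≤ 1 := by
    refine le_trans ?_ hCε
    apply mul_le_mul_of_nonneg_right _ hε
    have h1 : u ≤ U := by have := hup 1 (by omega); rwa [pow_one] at this
    have : (136 : ℝ) ≤ C := by rw [hCe]; nlinarith [sq_nonneg (c1 : ℝ)]
    nlinarith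
  have hε1 : ε ≤ 1 := by nlinarith
  obtain ⟨l, hl1, hl2, hl3⟩ := step1 (fun n => α * (n : ℝ) ^ k - γ) N S u ε hu hε hN hue hS hcard hx
  have hsum : ‖∑ n ∈ Ioc N (2 * N), ee (l * (α * (n : ℝ) ^ k - γ))‖ =
      ‖∑ n ∈ range N, ee (l * (α * ((N + 1 + n : ℕ) : ℝ) ^ k))‖ := by
    have e1 : Ioc N (2 * N) = Ico (N + 1) (2 * N + 1) := by ext n; simp only [mem_Ioc, mem_Ico]; omega
    rw [e1, sum_Ico_eq_sum_range, show 2 * N + 1 - (N + 1) = N by omega]
    have e2 : ∀ n ∈ range N, ee (l * (α * ((N + 1 + n : ℕ) : ℝ) ^ k - γ)) =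
        ee (-(l * γ)) * ee (l * (α * ((N + 1 + n : ℕ) : ℝ) ^ k)) := by
      intro n _
      rw [← ee_add]
      congr 1
      ring
    rw [sum_congr rfl e2, ← mul_sum, norm_mul, norm_ee, one_mul]
  rw [hsum] at hl3
  obtain ⟨q0, hq0, hq0', a, ha⟩ := hI N (8 * u) _ _ hN (by linarith) (ipow α k N l) hl3
  set K : ℝ := c * (8 * u) ^ m with hK
  have hK0 : 0 ≤ K := by positivity
  set M : ℕ := ⌈K * 2 ^ k⌉₊ + 2 with hM
  have hM1 : K * 2 ^ k + 2 ≤ M := by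
    rw [hM]; push_cast
    linarith [Nat.le_ceil (K * 2 ^ k)]
  have hM2 : (2 * M + 1 : ℝ) ≤ c2 * u ^ m := by
    have h1 := Nat.ceil_lt_add_one (show 0 ≤ K * 2 ^ k by positivity)
    have h2 : (M : ℝ) ≤ K * 2 ^ k + 3 := by rw [hM]; push_cast; linarith
    have h3 : (1 : ℝ) ≤ u ^ m := one_le_pow₀ hu
    have h4 : K = c * 8 ^ m * u ^ m := by rw [hK, mul_pow]; ring
    rw [hc2]
    push_cast
    rw [h4] at h2
    nlinarith
  set q : ℕ := q0 * l * k.factorial with hq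
  have hfac : 1 ≤ k.factorial := Nat.factorial_pos k
  have hq1 : 1 ≤ q := Nat.succ_le_of_lt (by positivity)
  have hqe : (q : ℝ) * α = q0 * (l * α * (k.factorial : ℝ)) := by rw [hq]; push_cast; ring
  have hqle : (q : ℝ) ≤ c1 * u ^ (m + 1) := by
    rw [hq, hc1]
    push_cast
    have h4 : K = c * 8 ^ m * u ^ m := by rw [hK, mul_pow]; ring
    rw [h4] at hq0'
    calc (q0 : ℝ) * l * k.factorial ≤ (c * 8 ^ m * u ^ m) * (17 * u) * k.factorial := by gcongr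
      _ = _ := by rw [pow_succ]; ring
  have hDle : 2 * u * q * (2 * M + 1) ≤ 2 * c1 * c2 * u ^ (2 * m + 2) := by
    calc 2 * u * q * (2 * M + 1) ≤ 2 * u * (c1 * u ^ (m + 1)) * (c2 * u ^ m) := by gcongr
      _ = _ := by rw [show 2 * m + 2 = m + 1 + m + 1 by ring, pow_add, pow_add, pow_one]; ring
  have hDN : 2 * u * q * (2 * M + 1) ≤ N := by
    refine hDle.trans (le_trans ?_ hCN)
    have h1 : 2 * (c1 : ℝ) * c2 ≤ C := by rw [hCe]; nlinarith [mul_le_mul_of_nonneg_left hc1r (show (0 : ℝ) ≤ c1 * c2 by positivity), show (0 : ℝ) ≤ c1 * c2 by positivity]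
    exact mul_le_mul h1 (hup _ (by omega)) (by positivity) (by linarith [show (0 : ℝ) ≤ 2 * (c1 : ℝ) * c2 by positivity])
  have hq1r : |q * α - a| ≤ K / (N : ℝ) ^ k := by rw [hqe]; exact ha
  have hfin := step2 k hk α γ ε K u N q M S a hu hε1 hN hq1 hK0 hq1r hM1 hS hcard hDN hx
  refine ⟨q, hq1, ?_, a, hfin.trans ?_⟩
  · refine hqle.trans ?_
    have h1 : (c1 : ℝ) ≤ C := by rw [hCe]; nlinarith [mul_le_mul_of_nonneg_left hc1r (show (0 : ℝ) ≤ c1 * c2 by positivity), mul_le_mul_of_nonneg_left hc2r (show (0 : ℝ) ≤ c1 by positivity)]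
    exact mul_le_mul h1 (hup _ (by omega)) (by positivity) (by linarith)
  · apply div_le_div_of_nonneg_right _ (by positivity)
    calc 2 * ε * q * (2 * u * q * (2 * M + 1)) ≤ 2 * ε * (c1 * u ^ (m + 1)) * (2 * c1 * c2 * u ^ (2 * m + 2)) := by
          gcongr
      _ = 4 * (c1 : ℝ) ^ 2 * c2 * U * ε := by
          rw [hU, show 3 * m + 3 = (m + 1) + (2 * m + 2) by ring, pow_add u (m + 1)]; ring
      _ ≤ C * U * ε := by
          apply mul_le_mul_of_nonneg_right _ hε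
          apply mul_le_mul_of_nonneg_right _ (by linarith)
          rw [hCe]; linarith

end Pool.Agent.N545.PWR
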